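import Pool.Agent.Lib.MP_e3f158_nt.Iter

/-!
# MP_e3f158_nt, type `(a, 0)` uniformly in `a`: explicit Chebyshev bound and small representations
-/

namespace Pool.Agent.Lib.MP_e3f158_nt.PSW

open Finset

private theorem small_cases : ∀ n : ℕ, n < 15 → 3 ≤ n →
    (n ≤ 8 → n ≤ 2 * Nat.primeCounting n) ∧ n ≤ 4 * Nat.primeCounting n := by
  decide +kernel

theorem log_ge_one {x : ℝ} (hx : 3 ≤ x) : 1 ≤ Real.log x := by
  rw [Real.le_log_iff_exp_le (by linarith)]
  have := Real.exp_one_lt_d9
  linarith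

/-- Explicit Chebyshev lower bound. -/
theorem pi_lower (n : ℕ) (hn : 3 ≤ n) : (n : ℝ) / (2 * Real.log n) ≤ Nat.primeCounting n := by
  have hn3 : (3 : ℝ) ≤ n := by exact_mod_cast hn
  have hlog : 1 ≤ Real.log n := log_ge_one hn3
  have hl2 := Real.log_two_gt_d9
  rcases Nat.lt_or_ge n 15 with h | h
  · rw [div_le_iff₀ (by linarith)]
    obtain ⟨h1, h2⟩ := small_cases n h hn
    rcases Nat.lt_or_ge 8 n with h8 | h8
    · have h3 : (n : ℝ) ≤ 4 * Nat.primeCounting n := by exact_mod_cast h2
      have h4 : (2 : ℝ) ≤ Real.log n := by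
        have h5 : Real.log 8 ≤ Real.log n := Real.log_le_log (by norm_num) (by exact_mod_cast h8.le)
        have h6 : Real.log 8 = 3 * Real.log 2 := by
          rw [show (8 : ℝ) = 2 ^ 3 by norm_num, Real.log_pow]; norm_num
        linarith
      have h5 : (0 : ℝ) ≤ Nat.primeCounting n := Nat.cast_nonneg _
      nlinarith
    · have h3 : (n : ℝ) ≤ 2 * Nat.primeCounting n := by exact_mod_cast h1 h8
      have h5 : (0 : ℝ) ≤ Nat.primeCounting n := Nat.cast_nonneg _
      nlinarith
  · have hn15 : (15 : ℝ) ≤ n := by exact_mod_cast h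
    have h1 := Chebyshev.pi_ge n
    refine le_trans ?_ h1
    rw [div_le_div_iff₀ (by linarith) (by linarith)]
    have h2 : Real.log ((n : ℝ) + 1) ≤ ((n : ℝ) + 1) / 16 - 1 + 4 * Real.log 2 := by
      have h3 : Real.log (((n : ℝ) + 1) / 16) ≤ ((n : ℝ) + 1) / 16 - 1 :=
        Real.log_le_sub_one_of_pos (by positivity)
      rw [Real.log_div (by positivity) (by norm_num), show (16 : ℝ) = 2 ^ 4 by norm_num,
        Real.log_pow] at h3
      push_cast at h3
      linarith
    have hl2' := Real.log_two_lt_d9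
    have h4 : (n : ℝ) ≤ 2 * (n * Real.log 2 - Real.log (n + 1)) := by nlinarith
    nlinarith

/-- Lower bound for the iterated prime counting function, uniform in the number of iterations. -/
theorem pic_lower (Y : ℕ) (hY : 3 ≤ Y) (k : ℕ) (h : 3 * (2 * Real.log Y) ^ k ≤ Y) :
    (Y : ℝ) / (2 * Real.log Y) ^ k ≤ pic k Y := by
  have hY3 : (3 : ℝ) ≤ Y := by exact_mod_cast hY
  have hlog : 1 ≤ Real.log Y := log_ge_one hY3
  induction k with
  | zero => rw [pow_zero, div_one, pic_zero]
  | succ k ih =>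
    have h1 : (2 * Real.log Y) ^ k ≤ (2 * Real.log Y) ^ (k + 1) :=
      pow_le_pow_right₀ (by linarith) (by omega)
    have h2 := ih (by linarith)
    have hpos : (0 : ℝ) < (2 * Real.log Y) ^ k := by positivity
    have h3 : (3 : ℝ) ≤ pic k Y := by
      refine le_trans ?_ h2
      rw [le_div_iff₀ hpos]
      linarith
    have h4 : 3 ≤ pic k Y := by exact_mod_cast h3
    rw [pic_succ]
    refine le_trans ?_ (pi_lower _ h4)
    have h5 : (pic k Y : ℝ) ≤ Y := by exact_mod_cast pic_le k Y
    have h6 : Real.log (pic k Y) ≤ Real.log Y := Real.log_le_log (by linarith) h5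
    have h7 : 1 ≤ Real.log (pic k Y) := log_ge_one h3
    rw [pow_succ, ← div_div]
    calc (Y : ℝ) / (2 * Real.log Y) ^ k / (2 * Real.log Y) ≤ pic k Y / (2 * Real.log Y) := by
          gcongr
      _ ≤ pic k Y / (2 * Real.log (pic k Y)) := by gcongr

private theorem four_pow (a : ℕ) (ha : 1 ≤ a) : a ^ 2 + 4 * a + 6 ≤ 4 ^ (a + 1) := by
  induction a, ha using Nat.le_induction with
  | base => norm_num
  | succ n hn ih =>
    have : 4 ^ (n + 1 + 1) = 4 * 4 ^ (n + 1) := by ring
    nlinarith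

/-- The second `a`-prime is small. -/
theorem ipr_two_le (a : ℕ) : ipr a 2 ≤ 2 ^ (a ^ 2 + 2 * a + 3) := by
  rcases Nat.eq_zero_or_pos a with h0 | h0
  · subst h0
    refine (iter_le_iff 1 2 _ (by norm_num)).2 ?_
    show 2 ≤ Nat.primeCounting 8
    decide +kernel
  · induction a, h0 using Nat.le_induction with
    | base =>
      refine (iter_le_iff 2 2 _ (by norm_num)).2 ?_
      show 2 ≤ Nat.primeCounting (Nat.primeCounting 64)
      decide +kernel
    | succ a ha ih =>
      have e : ipr (a + 1) 2 = pr (ipr a 2) := by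
        unfold ipr
        rw [Function.iterate_succ_apply']
      rw [e]
      have hpos : 1 ≤ ipr a 2 := (ipr_prime a 2).pos
      refine (pr_le_iff _ _ hpos).2 (ih.trans ?_)
      set E : ℕ := (a + 1) ^ 2 + 2 * (a + 1) + 3 with hE
      have hE' : E = a ^ 2 + 4 * a + 6 := by rw [hE]; ring
      have hE3 : 2 ≤ E := by omega
      have h3 : 3 ≤ 2 ^ E := by
        have : 2 ^ 2 ≤ 2 ^ E := Nat.pow_le_pow_right (by norm_num) hE3
        omega
      have h1 := pi_lower (2 ^ E) h3
      have h2 : Real.log ((2 ^ E : ℕ) : ℝ) = E * Real.log 2 := by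
        push_cast
        rw [Real.log_pow]
      rw [h2] at h1
      have hl2 := Real.log_two_lt_d9
      have hl2' := Real.log_two_gt_d9
      have hE0 : (0 : ℝ) < E := by exact_mod_cast (by omega : 0 < E)
      have h4 : ((2 ^ (a ^ 2 + 2 * a + 3) : ℕ) : ℝ) ≤ ((2 ^ E : ℕ) : ℝ) / (2 * (E * Real.log 2)) := by
        rw [le_div_iff₀ (by positivity)]
        have h5 : (E : ℝ) ≤ 4 ^ (a + 1) := by
          rw [hE']
          exact_mod_cast four_pow a ha
        have h6 : ((2 ^ E : ℕ) : ℝ) = (2 : ℝ) ^ (a ^ 2 + 2 * a + 3) * (2 * 4 ^ (a + 1)) := by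
          rw [hE']
          push_cast
          rw [show (4 : ℝ) = 2 ^ 2 by norm_num, ← pow_mul, ← pow_succ', ← pow_add]
          congr 1
          ring
        rw [h6]
        push_cast
        refine mul_le_mul_of_nonneg_left ?_ (by positivity)
        nlinarith
      have h7 := h4.trans h1
      exact_mod_cast h7

/-- On the whole range of Q1 there is a represented even integer in each `[X, 2X]`. -/
theorem exists_rep (a X : ℕ) (hX : 2 ^ (a ^ 2 + 2 * a + 5) ≤ X) :
    ∃ m, X ≤ m ∧ m ≤ 2 * X ∧ Even m ∧ HasRep a 0 m := by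
  have hq := ipr_two_le a
  set q := ipr a 2 with hqdef
  have h1 : 4 * q ≤ X := by
    have : 2 ^ (a ^ 2 + 2 * a + 5) = 4 * 2 ^ (a ^ 2 + 2 * a + 3) := by ring
    omega
  have hqp : q.Prime := ipr_prime a 2
  have hq3 : 3 ≤ q := by
    have h2 : ipr a 1 < ipr a 2 := iter_strictMono (a + 1) 1 2 (le_refl _) (by omega)
    have h3 := (ipr_prime a 1).two_le
    omega
  obtain ⟨p, hp, hp1, hp2⟩ := Nat.exists_prime_lt_and_le_two_mul (X - q) (by omega)
  refine ⟨q + p, by omega, by omega, ?_, ?_⟩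
  · exact (odd_of_prime_gt hqp (by omega)).add_odd (odd_of_prime_gt hp (by omega))
  · have hy : ipr 0 (Nat.count Nat.Prime p + 1) = p := by
      show pr (Nat.count Nat.Prime p + 1) = p
      rw [pr, Nat.add_sub_cancel]
      exact Nat.nth_count hp
    refine ⟨2, Nat.count Nat.Prime p + 1, by omega, by omega, by rw [hy], ?_⟩
    rw [hy]
    omega

end Pool.Agent.Lib.MP_e3f158_nt.PSW
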