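import Pool.Agent.Lib.MP_67663b_nt.Odd.WPNT

/-!
# MP_e3f158_nt: primes in `(X, 2X]`
-/

namespace Pool.Agent.Lib.MP_e3f158_nt.PSW

open Finset Filter

theorem theta_diff_le (X : ℕ) (hX : 1 ≤ X) :
    Chebyshev.theta (2 * (X : ℝ)) - Chebyshev.theta X ≤
      (((Ioc X (2 * X)).filter Nat.Prime).card : ℝ) * Real.log (2 * X) := by
  have e1 : Chebyshev.theta (2 * (X : ℝ)) = ∑ p ∈ (Ioc 0 (2 * X)).filter Nat.Prime, Real.log p := by
    have : (2 * (X : ℝ)) = ((2 * X : ℕ) : ℝ) := by push_cast; ring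
    rw [this, Chebyshev.theta, Nat.floor_natCast]
  have e2 : Chebyshev.theta (X : ℝ) = ∑ p ∈ (Ioc 0 X).filter Nat.Prime, Real.log p := by
    rw [Chebyshev.theta, Nat.floor_natCast]
  have e3 : (Ioc 0 (2 * X)).filter Nat.Prime =
      (Ioc 0 X).filter Nat.Prime ∪ (Ioc X (2 * X)).filter Nat.Prime := by
    rw [← filter_union]
    congr 1
    ext m
    simp only [mem_union, mem_Ioc]
    omega
  have e4 : Disjoint ((Ioc 0 X).filter Nat.Prime) ((Ioc X (2 * X)).filter Nat.Prime) := by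
    apply Finset.disjoint_filter_filter
    rw [Finset.disjoint_left]
    intro m hm hm'
    rw [mem_Ioc] at hm hm'
    omega
  rw [e1, e2, e3, sum_union e4, add_sub_cancel_left]
  refine (sum_le_sum (g := fun _ => Real.log (2 * X)) ?_).trans ?_
  · intro p hp
    rw [mem_filter, mem_Ioc] at hp
    apply Real.log_le_log
    · exact_mod_cast hp.2.pos
    · exact_mod_cast hp.1.2
  · rw [sum_const, nsmul_eq_mul]

/-- Primes in `(X, 2X]`. -/
theorem dyadic : ∃ c : ℝ, 0 < c ∧ ∀ᶠ X : ℕ in atTop,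
    c * (X / Real.log X) ≤ (((Ioc X (2 * X)).filter Nat.Prime).card : ℝ) := by
  obtain ⟨c, hc, hwin⟩ := MP_67663b_nt.Odd.psi_window (η := 1) one_pos
  obtain ⟨C, hC⟩ := Chebyshev.psi_sub_theta_le_mul_sqrt
  refine ⟨c / 4, by positivity, ?_⟩
  have h1 := tendsto_natCast_atTop_atTop.eventually hwin
  have h2 : ∀ᶠ X : ℕ in atTop, (4 * |C| / c) ^ 2 ≤ (X : ℝ) :=
    tendsto_natCast_atTop_atTop.eventually_ge_atTop _
  filter_upwards [h1, h2, eventually_ge_atTop 3] with X hX1 hX2 hX3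
  have hX0 : (0 : ℝ) < X := by exact_mod_cast (by omega : 0 < X)
  have hX3' : (3 : ℝ) ≤ X := by exact_mod_cast hX3
  rw [one_add_one_eq_two] at hX1
  have h3 := hC (2 * (X : ℝ))
  have h4 : Chebyshev.theta (X : ℝ) ≤ Chebyshev.psi X := Chebyshev.theta_le_psi _
  have h5 := theta_diff_le X (by omega)
  have h6 : C * Real.sqrt (2 * X) ≤ c / 2 * X := by
    have h7 : Real.sqrt (2 * X) ≤ 2 * Real.sqrt X := by
      rw [Real.sqrt_mul (by norm_num)]
      refine mul_le_mul_of_nonneg_right ?_ (Real.sqrt_nonneg _)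
      rw [Real.sqrt_le_iff]
      norm_num
    have h8 : 4 * |C| / c ≤ Real.sqrt X := by
      rw [Real.le_sqrt (by positivity) hX0.le]
      exact hX2
    have h9 : Real.sqrt X * Real.sqrt X = X := Real.mul_self_sqrt hX0.le
    have h10 : 4 * |C| ≤ Real.sqrt X * c := by
      rwa [div_le_iff₀ hc] at h8
    have h11 : C ≤ |C| := le_abs_self C
    have h12 : 0 ≤ Real.sqrt X := Real.sqrt_nonneg _
    calc C * Real.sqrt (2 * X) ≤ |C| * (2 * Real.sqrt X) :=
          mul_le_mul h11 h7 (Real.sqrt_nonneg _) (abs_nonneg _)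
      _ = 4 * |C| * Real.sqrt X / 2 := by ring
      _ ≤ (Real.sqrt X * c) * Real.sqrt X / 2 := by gcongr
      _ = c / 2 * (Real.sqrt X * Real.sqrt X) := by ring
      _ = c / 2 * X := by rw [h9]
  have hlogX : 1 ≤ Real.log X := by
    rw [Real.le_log_iff_exp_le hX0]
    have := Real.exp_one_lt_d9
    linarith
  have hlog2 : Real.log (2 * X) ≤ 2 * Real.log X := by
    rw [Real.log_mul (by norm_num) hX0.ne']
    have := Real.log_two_lt_d9
    linarith
  set M : ℝ := (((Ioc X (2 * X)).filter Nat.Prime).card : ℝ) with hM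
  have hM0 : 0 ≤ M := Nat.cast_nonneg _
  have h13 : c / 2 * X ≤ M * (2 * Real.log X) := by
    have h14 : M * Real.log (2 * X) ≤ M * (2 * Real.log X) := mul_le_mul_of_nonneg_left hlog2 hM0
    linarith
  rw [← mul_div_assoc, div_le_iff₀ (by linarith)]
  linarith

end Pool.Agent.Lib.MP_e3f158_nt.PSW
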