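import Pool.Agent.Lib.MP_e3f158_nt.D2.Defs
import Pool.Agent.Lib.MP_c77da8_nt.Mert

/-!
# MP_e3f158_nt: average of `exp (∑_{p ∣ h} 1/p)` over shifted differences of a dense set

For a set `Q ⊆ [1, Y]` of density `≥ 2 e^{-k}` the average of `ES` over the differences
`q + j - q'`, `q, q' ∈ Q`, `0 ≤ j ≤ W`, is `O(1 + log k / (W + 1))`.  The primes `p ≤ k^2` are
averaged over `j` (a divisor `d` hits at most `(W + 1)/d + 1` of the shifts), and for the primes
`p > k^2` the `k^2`-th moment shows that the average of `E₂ - 1`, `E₂ = exp (∑_{p ∣ h, p > k^2} 1/p)`,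
is `O(1/k)`.
-/

namespace Pool.Agent.Lib.MP_e3f158_nt.PSW

open Finset D2

private theorem clog_le (k : ℕ) (hk : 2 ≤ k) :
    1 ≤ Nat.clog 2 k ∧ ((Nat.clog 2 k : ℕ) : ℝ) ≤ 3 * Real.log k := by
  have hJ : 1 ≤ Nat.clog 2 k := Nat.clog_pos (by norm_num) hk
  refine ⟨hJ, ?_⟩
  have h1 : 2 ^ (Nat.clog 2 k - 1) < k := by
    have := Nat.pow_pred_clog_lt_self (b := 2) (by norm_num) (x := k) (by omega)
    simpa using this
  have h2 : ((Nat.clog 2 k : ℕ) : ℝ) - 1 ≤ Real.log k / Real.log 2 := by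
    rw [le_div_iff₀ (Real.log_pos (by norm_num))]
    have h3 : ((2 : ℝ) ^ (Nat.clog 2 k - 1)) ≤ k := by exact_mod_cast h1.le
    have h4 := Real.log_le_log (by positivity) h3
    rw [Real.log_pow] at h4
    have h5 : (((Nat.clog 2 k - 1 : ℕ)) : ℝ) = (Nat.clog 2 k : ℝ) - 1 := by
      push_cast [Nat.cast_sub hJ]; ring
    rw [h5] at h4
    exact h4
  have hl2 : (0.6931471803 : ℝ) < Real.log 2 := Real.log_two_gt_d9
  have hlk : Real.log 2 ≤ Real.log k := Real.log_le_log (by norm_num) (by exact_mod_cast hk)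
  have h6 : Real.log k / Real.log 2 ≤ 1.5 * Real.log k := by
    rw [div_le_iff₀ (by linarith)]
    nlinarith
  linarith

private theorem small_part (k : ℕ) (hk : 2 ≤ k) (D : Finset ℕ) (hD : ∀ p ∈ D, p.Prime)
    (hDk : ∀ p ∈ D, p ≤ k) :
    Real.exp (∑ p ∈ D, (1 : ℝ) / p) ≤ 3 * Real.exp 6 * Real.log k := by
  obtain ⟨hJ, hJ2⟩ := clog_le k hk
  set J := Nat.clog 2 k with hJdef
  have h1 : ∑ p ∈ D, (1 : ℝ) / p ≤ MP_c77da8_nt.Mert.R J := by
    unfold MP_c77da8_nt.Mert.R
    apply Finset.sum_le_sum_of_subset_of_nonneg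
    · intro p hp
      rw [Nat.mem_primesLE]
      exact ⟨(hDk p hp).trans (Nat.le_pow_clog (by norm_num) k), hD p hp⟩
    · intro p _ _
      positivity
  have h2 := MP_c77da8_nt.Mert.R_le J hJ
  have hJ0 : (0 : ℝ) < J := by exact_mod_cast hJ
  have hlk : 0 < Real.log k := Real.log_pos (by exact_mod_cast (by omega : 1 < k))
  calc Real.exp (∑ p ∈ D, (1 : ℝ) / p) ≤ Real.exp (Real.log J + 6) :=
        Real.exp_le_exp.mpr (h1.trans h2)
    _ = J * Real.exp 6 := by rw [Real.exp_add, Real.exp_log hJ0]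
    _ ≤ (3 * Real.log k) * Real.exp 6 := by
        apply mul_le_mul_of_nonneg_right hJ2 (Real.exp_pos _).le
    _ = 3 * Real.exp 6 * Real.log k := by ring

private theorem exp_le_lin (x : ℝ) (h0 : 0 ≤ x) (h1 : x ≤ 1) : Real.exp x ≤ 1 + 2 * x := by
  have h := Real.exp_bound' h0 h1 (n := 2) (by norm_num)
  simp only [Finset.sum_range_succ, Finset.sum_range_zero, Nat.factorial] at h
  norm_num at h
  nlinarith

/-- numbers up to `Y` divisible by all the primes of `D` -/
private theorem card_multiples (Y : ℕ) (D : Finset ℕ) (hD : ∀ p ∈ D, p.Prime) :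
    ((((Icc 1 Y).filter fun h => ∀ p ∈ D, p ∣ h).card : ℕ) : ℝ) ≤ Y / ((∏ p ∈ D, p : ℕ) : ℝ) := by
  have hpos : 0 < ∏ p ∈ D, p := Finset.prod_pos fun p hp => (hD p hp).pos
  rw [le_div_iff₀ (by exact_mod_cast hpos)]
  have h1 : ((Icc 1 Y).filter fun h => ∀ p ∈ D, p ∣ h) ⊆
      (Ioc 0 Y).filter fun h => (∏ p ∈ D, p) ∣ h := by
    intro h hh
    rw [Finset.mem_filter, Finset.mem_Icc] at hh
    rw [Finset.mem_filter, Finset.mem_Ioc]
    refine ⟨⟨by omega, hh.1.2⟩, ?_⟩
    exact Finset.prod_primes_dvd h (fun p hp => (hD p hp).prime) hh.2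
  have h2 := Finset.card_le_card h1
  rw [Nat.Ioc_filter_dvd_card_eq_div] at h2
  have h3 : ((Icc 1 Y).filter fun h => ∀ p ∈ D, p ∣ h).card * (∏ p ∈ D, p) ≤ Y :=
    (Nat.mul_le_mul_right _ h2).trans (Nat.div_mul_le_self _ _)
  exact_mod_cast h3

private theorem large_part (k : ℕ) (hk : 2 ≤ k) (Y : ℕ) :
    ∑ h ∈ Icc 1 Y, ∏ p ∈ h.primeFactors.filter (fun p => k < p), (1 + 2 * (k : ℝ) / p) ≤
      Y * Real.exp 2 := by
  classical
  set P : Finset ℕ := (Ioc k Y).filter Nat.Prime with hP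
  have hk0 : (0 : ℝ) < k := by exact_mod_cast (by omega : 0 < k)
  have key : ∀ h ∈ Icc 1 Y, ∏ p ∈ h.primeFactors.filter (fun p => k < p), (1 + 2 * (k : ℝ) / p) =
      ∑ D ∈ P.powerset, if (∀ p ∈ D, p ∣ h) then ∏ p ∈ D, (2 * (k : ℝ) / p) else 0 := by
    intro h hh
    rw [Finset.mem_Icc] at hh
    rw [Finset.prod_one_add, ← Finset.sum_filter]
    apply Finset.sum_congr _ (fun _ _ => rfl)
    ext D
    simp only [Finset.mem_powerset, Finset.mem_filter, hP]
    constructor
    · intro hD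
      refine ⟨fun p hp => ?_, fun p hp => ?_⟩
      · have := hD hp
        rw [Finset.mem_filter, Nat.mem_primeFactors] at this
        rw [Finset.mem_filter, Finset.mem_Ioc]
        exact ⟨⟨this.2, (Nat.le_of_dvd (by omega) this.1.2.1).trans hh.2⟩, this.1.1⟩
      · have := hD hp
        rw [Finset.mem_filter, Nat.mem_primeFactors] at this
        exact this.1.2.1
    · rintro ⟨h1, h2⟩ p hp
      have := h1 hp
      rw [Finset.mem_filter, Finset.mem_Ioc] at this
      rw [Finset.mem_filter, Nat.mem_primeFactors]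
      exact ⟨⟨this.2, h2 p hp, by omega⟩, this.1.1⟩
  rw [Finset.sum_congr rfl key, Finset.sum_comm]
  have hPprime : ∀ D ∈ P.powerset, ∀ p ∈ D, p.Prime := by
    intro D hD p hp
    have := (Finset.mem_powerset.mp hD) hp
    rw [hP, Finset.mem_filter] at this
    exact this.2
  calc ∑ D ∈ P.powerset, ∑ h ∈ Icc 1 Y,
        (if (∀ p ∈ D, p ∣ h) then ∏ p ∈ D, (2 * (k : ℝ) / p) else 0)
      ≤ ∑ D ∈ P.powerset, (Y : ℝ) * ∏ p ∈ D, (2 * (k : ℝ) / (p : ℝ) ^ 2) := by
        apply Finset.sum_le_sum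
        intro D hD
        rw [← Finset.sum_filter, Finset.sum_const, nsmul_eq_mul]
        have h1 := card_multiples Y D (hPprime D hD)
        have h2 : (0 : ℝ) ≤ ∏ p ∈ D, (2 * (k : ℝ) / p) := Finset.prod_nonneg fun p _ => by positivity
        refine (mul_le_mul_of_nonneg_right h1 h2).trans (le_of_eq ?_)
        rw [Nat.cast_prod, div_mul_eq_mul_div, mul_div_assoc, ← Finset.prod_div_distrib]
        congr 1
        apply Finset.prod_congr rfl
        intro p hp
        have : (p : ℝ) ≠ 0 := by exact_mod_cast (hPprime D hD p hp).ne_zero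
        field_simp
    _ = Y * ∏ p ∈ P, (1 + 2 * (k : ℝ) / (p : ℝ) ^ 2) := by
        rw [← Finset.mul_sum, Finset.prod_one_add]
    _ ≤ Y * Real.exp (∑ p ∈ P, 2 * (k : ℝ) / (p : ℝ) ^ 2) := by
        apply mul_le_mul_of_nonneg_left _ (Nat.cast_nonneg _)
        rw [Real.exp_sum]
        apply Finset.prod_le_prod
        · intro p _; positivity
        · intro p _
          have := Real.add_one_le_exp (2 * (k : ℝ) / (p : ℝ) ^ 2)
          linarith
    _ ≤ Y * Real.exp 2 := by
        apply mul_le_mul_of_nonneg_left _ (Nat.cast_nonneg _)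
        apply Real.exp_le_exp.mpr
        rcases le_or_gt k Y with hkY | hkY
        · have h3 : ∑ p ∈ P, 2 * (k : ℝ) / (p : ℝ) ^ 2 ≤
              ∑ p ∈ Ioc k Y, 2 * (k : ℝ) / (p : ℝ) ^ 2 := by
            apply Finset.sum_le_sum_of_subset_of_nonneg (Finset.filter_subset _ _)
            intro p _ _; positivity
          have h4 := sum_Ioc_inv_sq_le_sub (α := ℝ) (k := k) (n := Y) (by omega) hkY
          have h5 : ∑ p ∈ Ioc k Y, 2 * (k : ℝ) / (p : ℝ) ^ 2 =
              2 * k * ∑ p ∈ Ioc k Y, ((p : ℝ) ^ 2)⁻¹ := by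
            rw [Finset.mul_sum]
            apply Finset.sum_congr rfl
            intro p _
            rw [div_eq_mul_inv]
          have h6 : (0 : ℝ) ≤ (Y : ℝ)⁻¹ := by positivity
          have h7 : 2 * (k : ℝ) * ∑ p ∈ Ioc k Y, ((p : ℝ) ^ 2)⁻¹ ≤ 2 * k * (k : ℝ)⁻¹ :=
            mul_le_mul_of_nonneg_left (by linarith) (by positivity)
          have h8 : 2 * (k : ℝ) * (k : ℝ)⁻¹ = 2 := by
            rw [mul_assoc, mul_inv_cancel₀ hk0.ne', mul_one]
          linarith
        · have : P = ∅ := by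
            rw [hP, Finset.Ioc_eq_empty (by omega), Finset.filter_empty]
          rw [this]; simp


/-- shifts divisible by all the primes of `D` -/
private theorem card_shifts (W q q' : ℕ) (D : Finset ℕ) (hD : ∀ p ∈ D, p.Prime) :
    ((((range (W + 1)).filter fun j => ∀ p ∈ D, p ∣ Nat.dist (q + j) q').card : ℕ) : ℝ) ≤
      ((W : ℝ) + 1) / ((∏ p ∈ D, p : ℕ) : ℝ) + 1 := by
  set d : ℕ := ∏ p ∈ D, p with hd
  have hpos : 0 < d := Finset.prod_pos fun p hp => (hD p hp).pos
  have h1 : ((range (W + 1)).filter fun j => ∀ p ∈ D, p ∣ Nat.dist (q + j) q').card ≤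
      (range (W / d + 1)).card := by
    refine card_le_card_of_injOn (fun j => j / d) ?_ ?_
    · intro j hj
      rw [mem_coe, mem_filter, mem_range] at hj
      rw [mem_coe, mem_range]
      exact Nat.lt_succ_of_le (Nat.div_le_div_right (by omega))
    · intro j hj j' hj' h
      rw [mem_coe, mem_filter, mem_range] at hj hj'
      have key : ∀ i, (∀ p ∈ D, p ∣ Nat.dist (q + i) q') → q + i ≡ q' [MOD d] := by
        intro i hi
        have h2 : d ∣ Nat.dist (q + i) q' :=
          Finset.prod_primes_dvd _ (fun p hp => (hD p hp).prime) hi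
        rcases le_total (q + i) q' with h3 | h3
        · rw [Nat.dist_eq_sub_of_le h3] at h2
          exact (Nat.modEq_iff_dvd' h3).2 h2
        · rw [Nat.dist_eq_sub_of_le_right h3] at h2
          exact ((Nat.modEq_iff_dvd' h3).2 h2).symm
      have h4 : q + j ≡ q + j' [MOD d] := (key j hj.2).trans (key j' hj'.2).symm
      have h5 : j ≡ j' [MOD d] := Nat.ModEq.add_left_cancel' q h4
      have h6 : j % d = j' % d := h5
      have h7 : j / d = j' / d := h
      rw [← Nat.div_add_mod j d, ← Nat.div_add_mod j' d, h6, h7]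
  rw [card_range] at h1
  have h2 : ((W / d : ℕ) : ℝ) ≤ (W : ℝ) / d := Nat.cast_div_le
  have h3 : (W : ℝ) / d ≤ ((W : ℝ) + 1) / d := by gcongr; linarith
  have h4 : ((((range (W + 1)).filter fun j => ∀ p ∈ D, p ∣ Nat.dist (q + j) q').card : ℕ) : ℝ) ≤
      ((W / d + 1 : ℕ) : ℝ) := by exact_mod_cast h1
  push_cast at h4
  linarith

/-- the part of `ES` coming from the primes `≤ w` -/
private noncomputable def E1 (w h : ℕ) : ℝ :=
  Real.exp (∑ p ∈ h.primeFactors.filter (fun p => p ≤ w), (1 : ℝ) / p)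

/-- the part of `ES` coming from the primes `> w` -/
private noncomputable def E2 (w h : ℕ) : ℝ :=
  Real.exp (∑ p ∈ h.primeFactors.filter (fun p => w < p), (1 : ℝ) / p)

private theorem ES_split (w h : ℕ) : ES h.primeFactors = E1 w h * E2 w h := by
  unfold ES E1 E2
  rw [← Real.exp_add, ← Finset.sum_filter_add_sum_filter_not h.primeFactors (fun p => p ≤ w)]
  congr 3
  apply Finset.filter_congr
  intro p _
  exact not_le

private theorem E1_le (w h : ℕ) (hw : 2 ≤ w) : E1 w h ≤ 3 * Real.exp 6 * Real.log w := by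
  refine small_part w hw _ ?_ ?_
  · intro p hp
    exact Nat.prime_of_mem_primeFactors (Finset.mem_filter.mp hp).1
  · intro p hp
    exact (Finset.mem_filter.mp hp).2

private theorem E1_sum (w W q q' : ℕ) (hw : 2 ≤ w) :
    ∑ j ∈ range (W + 1), E1 w (Nat.dist (q + j) q') ≤
      ((W : ℝ) + 1) * Real.exp 2 + 3 * Real.exp 6 * Real.log w := by
  classical
  set P : Finset ℕ := (Ioc 1 w).filter Nat.Prime with hP
  set g : ℕ → ℝ := fun p => Real.exp ((1 : ℝ) / p) - 1 with hg
  have hg0 : ∀ p, 0 ≤ g p := by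
    intro p
    have : 1 ≤ Real.exp ((1 : ℝ) / p) := Real.one_le_exp (by positivity)
    simp only [hg]
    linarith
  have hPp : ∀ p ∈ P, p.Prime := fun p hp => (mem_filter.mp hp).2
  have h1 : ∀ h : ℕ, E1 w h ≤ ∑ D ∈ P.powerset, if (∀ p ∈ D, p ∣ h) then ∏ p ∈ D, g p else 0 := by
    intro h
    have e1 : ∑ D ∈ P.powerset, (if (∀ p ∈ D, p ∣ h) then ∏ p ∈ D, g p else 0) =
        ∏ p ∈ P.filter (fun p => p ∣ h), (1 + g p) := by
      rw [Finset.prod_one_add, ← Finset.sum_filter]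
      apply Finset.sum_congr _ (fun _ _ => rfl)
      ext D
      simp only [Finset.mem_powerset, Finset.mem_filter]
      constructor
      · rintro ⟨h1, h2⟩ p hp
        exact mem_filter.2 ⟨h1 hp, h2 p hp⟩
      · intro h1
        exact ⟨fun p hp => (mem_filter.1 (h1 hp)).1, fun p hp => (mem_filter.1 (h1 hp)).2⟩
    rw [e1]
    have e2 : ∀ p, 1 + g p = Real.exp ((1 : ℝ) / p) := by
      intro p
      simp only [hg]
      ring
    simp only [e2]
    rw [← Real.exp_sum]
    unfold E1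
    apply Real.exp_le_exp.mpr
    apply Finset.sum_le_sum_of_subset_of_nonneg
    · intro p hp
      rw [mem_filter, Nat.mem_primeFactors] at hp
      rw [mem_filter, hP, mem_filter, mem_Ioc]
      exact ⟨⟨⟨hp.1.1.one_lt, hp.2⟩, hp.1.1⟩, hp.1.2.1⟩
    · intro p _ _
      positivity
  calc ∑ j ∈ range (W + 1), E1 w (Nat.dist (q + j) q')
      ≤ ∑ j ∈ range (W + 1), ∑ D ∈ P.powerset,
          (if (∀ p ∈ D, p ∣ Nat.dist (q + j) q') then ∏ p ∈ D, g p else 0) :=
        Finset.sum_le_sum fun j _ => h1 _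
    _ = ∑ D ∈ P.powerset, ∑ j ∈ range (W + 1),
          (if (∀ p ∈ D, p ∣ Nat.dist (q + j) q') then ∏ p ∈ D, g p else 0) := Finset.sum_comm
    _ ≤ ∑ D ∈ P.powerset, (((W : ℝ) + 1) * ∏ p ∈ D, (g p / p) + ∏ p ∈ D, g p) := by
        apply Finset.sum_le_sum
        intro D hD
        have hDp : ∀ p ∈ D, p.Prime := fun p hp => hPp p (mem_powerset.1 hD hp)
        rw [← Finset.sum_filter, Finset.sum_const, nsmul_eq_mul]
        have h2 := card_shifts W q q' D hDp
        have h3 : (0 : ℝ) ≤ ∏ p ∈ D, g p := Finset.prod_nonneg fun p _ => hg0 p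
        refine (mul_le_mul_of_nonneg_right h2 h3).trans (le_of_eq ?_)
        rw [Nat.cast_prod, add_mul, one_mul, Finset.prod_div_distrib]
        congr 1
        ring
    _ = ((W : ℝ) + 1) * ∏ p ∈ P, (1 + g p / p) + ∏ p ∈ P, (1 + g p) := by
        rw [Finset.sum_add_distrib, ← Finset.mul_sum, Finset.prod_one_add, Finset.prod_one_add]
    _ ≤ ((W : ℝ) + 1) * Real.exp 2 + 3 * Real.exp 6 * Real.log w := by
        refine add_le_add ?_ ?_
        · refine mul_le_mul_of_nonneg_left ?_ (by positivity)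
          have h4 : ∀ p ∈ P, 1 + g p / p ≤ Real.exp (2 * ((p : ℝ) ^ 2)⁻¹) := by
            intro p hp
            have hp1 : (1 : ℝ) ≤ p := by exact_mod_cast (hPp p hp).one_le
            have h5 := exp_le_lin ((1 : ℝ) / p) (by positivity)
              (by rw [div_le_one (by linarith)]; exact hp1)
            have h6 : g p / p ≤ 2 * ((p : ℝ) ^ 2)⁻¹ := by
              rw [div_le_iff₀ (by linarith)]
              have : 2 * ((p : ℝ) ^ 2)⁻¹ * p = 2 * (1 / p) := by
                field_simp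
              rw [this]
              simp only [hg]
              linarith
            have h7 := Real.add_one_le_exp (2 * ((p : ℝ) ^ 2)⁻¹)
            linarith
          calc ∏ p ∈ P, (1 + g p / p) ≤ ∏ p ∈ P, Real.exp (2 * ((p : ℝ) ^ 2)⁻¹) :=
                Finset.prod_le_prod (fun p _ => by have := hg0 p; positivity) h4
            _ = Real.exp (∑ p ∈ P, 2 * ((p : ℝ) ^ 2)⁻¹) := (Real.exp_sum _ _).symm
            _ ≤ Real.exp 2 := by
                apply Real.exp_le_exp.mpr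
                have h8 : ∑ p ∈ P, 2 * ((p : ℝ) ^ 2)⁻¹ ≤ ∑ p ∈ Ioc 1 w, 2 * ((p : ℝ) ^ 2)⁻¹ := by
                  apply Finset.sum_le_sum_of_subset_of_nonneg (Finset.filter_subset _ _)
                  intro p _ _; positivity
                have h9 := sum_Ioc_inv_sq_le_sub (α := ℝ) (k := 1) (n := w) (by omega) (by omega)
                rw [← Finset.mul_sum (Ioc 1 w)] at h8
                have h10 : (0 : ℝ) ≤ (w : ℝ)⁻¹ := by positivity
                push_cast at h9
                rw [inv_one] at h9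
                linarith
        · have e2 : ∀ p, 1 + g p = Real.exp ((1 : ℝ) / p) := by
            intro p
            simp only [hg]
            ring
          simp only [e2]
          rw [← Real.exp_sum]
          exact small_part w hw P hPp fun p hp => (mem_Ioc.1 (mem_filter.1 hp).1).2

private theorem E2_pow_le (w h : ℕ) (hw : 2 ≤ w) :
    E2 w h ^ w ≤ ∏ p ∈ h.primeFactors.filter (fun p => w < p), (1 + 2 * (w : ℝ) / p) := by
  unfold E2
  rw [← Real.exp_nat_mul, Finset.mul_sum, Real.exp_sum]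
  apply Finset.prod_le_prod
  · intro p _; positivity
  · intro p hp
    have hp2 := (Finset.mem_filter.mp hp).2
    have hpk : (w : ℝ) < p := by exact_mod_cast hp2
    have hw0 : (0 : ℝ) < w := by exact_mod_cast (by omega : 0 < w)
    have hp0 : (0 : ℝ) < p := by linarith
    have h9 := exp_le_lin ((w : ℝ) * (1 / p)) (by positivity)
      (by rw [mul_one_div, div_le_one hp0]; exact hpk.le)
    refine h9.trans (le_of_eq ?_)
    ring

private theorem E2_pos (w h : ℕ) : 0 < E2 w h := Real.exp_pos _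

private theorem one_le_E2 (w h : ℕ) : 1 ≤ E2 w h :=
  Real.one_le_exp (Finset.sum_nonneg fun p _ => by positivity)

private theorem E2_zero (w : ℕ) : E2 w 0 = 1 := by
  unfold E2
  simp

/-- the high moment over the differences with a fixed element -/
private theorem E2_moment_one (w Z u : ℕ) (hw : 2 ≤ w) (Q : Finset ℕ)
    (hQ : ∀ q ∈ Q, Nat.dist u q ≤ Z) :
    ∑ q ∈ Q, E2 w (Nat.dist u q) ^ w ≤ 1 + 2 * (Z * Real.exp 2) := by
  have hmom : ∑ h ∈ Icc 1 Z, E2 w h ^ w ≤ Z * Real.exp 2 :=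
    (Finset.sum_le_sum fun h _ => E2_pow_le w h hw).trans (large_part w hw Z)
  have h1 : ∑ q ∈ Q, E2 w (Nat.dist u q) ^ w =
      ∑ q ∈ Q.filter (fun q => q = u), E2 w (Nat.dist u q) ^ w +
      (∑ q ∈ Q.filter (fun q => u < q), E2 w (Nat.dist u q) ^ w +
       ∑ q ∈ Q.filter (fun q => q < u), E2 w (Nat.dist u q) ^ w) := by
    rw [← Finset.sum_filter_add_sum_filter_not Q (fun q => q = u)]
    congr 1
    rw [← Finset.sum_filter_add_sum_filter_not (Q.filter fun q => ¬ q = u) (fun q => u < q),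
      Finset.filter_filter, Finset.filter_filter]
    congr 1
    · apply Finset.sum_congr _ fun _ _ => rfl
      apply Finset.filter_congr
      intro q _
      omega
    · apply Finset.sum_congr _ fun _ _ => rfl
      apply Finset.filter_congr
      intro q _
      omega
  have h2 : ∑ q ∈ Q.filter (fun q => q = u), E2 w (Nat.dist u q) ^ w ≤ 1 := by
    calc ∑ q ∈ Q.filter (fun q => q = u), E2 w (Nat.dist u q) ^ w
        ≤ ∑ q ∈ {u}, E2 w (Nat.dist u q) ^ w := by
          apply Finset.sum_le_sum_of_subset_of_nonneg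
          · intro q hq
            rw [mem_filter] at hq
            rw [mem_singleton]
            exact hq.2
          · intro q _ _
            exact pow_nonneg (E2_pos _ _).le _
      _ = 1 := by
          rw [sum_singleton, Nat.dist_self, E2_zero, one_pow]
  have h3 : ∑ q ∈ Q.filter (fun q => u < q), E2 w (Nat.dist u q) ^ w ≤
      ∑ h ∈ Icc 1 Z, E2 w h ^ w := by
    rw [← Finset.sum_image (f := fun h => E2 w h ^ w) (g := fun q => Nat.dist u q)]
    · apply Finset.sum_le_sum_of_subset_of_nonneg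
      · intro h hh
        rw [mem_image] at hh
        obtain ⟨q, hq, rfl⟩ := hh
        rw [mem_filter] at hq
        rw [mem_Icc]
        refine ⟨?_, hQ q hq.1⟩
        rw [Nat.dist_eq_sub_of_le hq.2.le]
        omega
      · intro h _ _
        exact pow_nonneg (E2_pos _ _).le _
    · intro q hq q' hq' h
      rw [mem_coe, mem_filter] at hq hq'
      simp only at h
      rw [Nat.dist_eq_sub_of_le hq.2.le, Nat.dist_eq_sub_of_le hq'.2.le] at h
      omega
  have h4 : ∑ q ∈ Q.filter (fun q => q < u), E2 w (Nat.dist u q) ^ w ≤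
      ∑ h ∈ Icc 1 Z, E2 w h ^ w := by
    rw [← Finset.sum_image (f := fun h => E2 w h ^ w) (g := fun q => Nat.dist u q)]
    · apply Finset.sum_le_sum_of_subset_of_nonneg
      · intro h hh
        rw [mem_image] at hh
        obtain ⟨q, hq, rfl⟩ := hh
        rw [mem_filter] at hq
        rw [mem_Icc]
        refine ⟨?_, hQ q hq.1⟩
        rw [Nat.dist_eq_sub_of_le_right hq.2.le]
        omega
      · intro h _ _
        exact pow_nonneg (E2_pos _ _).le _
    · intro q hq q' hq' h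
      rw [mem_coe, mem_filter] at hq hq'
      simp only at h
      rw [Nat.dist_eq_sub_of_le_right hq.2.le, Nat.dist_eq_sub_of_le_right hq'.2.le] at h
      omega
  rw [h1]
  linarith

/-- the average of `E₂ - 1` -/
private theorem E2_avg (Y W j : ℕ) (Q : Finset ℕ) (hQ : Q ⊆ Icc 1 Y) (hW : W ≤ Y) (hj : j ≤ W)
    (k : ℕ) (hk : 3 ≤ k) (hY : 2 * (Y : ℝ) ≤ Q.card * Real.exp k) :
    ∑ x ∈ Q ×ˢ Q, (E2 (k ^ 2) (Nat.dist (x.1 + j) x.2) - 1) ≤ (Q.card : ℝ) ^ 2 * (4 / k) := by
  rcases Q.eq_empty_or_nonempty with hQe | hQne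
  · subst hQe
    simp
  have hw : 2 ≤ k ^ 2 := by nlinarith
  set w : ℕ := k ^ 2 with hwdef
  have hq1 : (1 : ℝ) ≤ Q.card := by exact_mod_cast hQne.card_pos
  have hk3 : (3 : ℝ) ≤ k := by exact_mod_cast hk
  have hmom : ∑ x ∈ Q ×ˢ Q, E2 w (Nat.dist (x.1 + j) x.2) ^ w ≤
      Q.card * (Q.card * Real.exp (k + 3)) := by
    rw [Finset.sum_product]
    have h1 : ∀ q ∈ Q, ∑ q' ∈ Q, E2 w (Nat.dist (q + j) q') ^ w ≤ Q.card * Real.exp (k + 3) := by
      intro q hq
      have h2 := E2_moment_one w (2 * Y) (q + j) hw Q (by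
        intro q' hq'
        have h3 := mem_Icc.1 (hQ hq)
        have h4 := mem_Icc.1 (hQ hq')
        rcases le_total (q + j) q' with h5 | h5
        · rw [Nat.dist_eq_sub_of_le h5]; omega
        · rw [Nat.dist_eq_sub_of_le_right h5]; omega)
      refine h2.trans ?_
      have h5 : Real.exp ((k : ℝ) + 3) = Real.exp k * Real.exp 3 := Real.exp_add _ _
      have h6 : Real.exp 3 = Real.exp 2 * Real.exp 1 := by
        rw [← Real.exp_add]; norm_num
      have h7 := Real.exp_one_gt_d9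
      have h8 : Real.exp 2 = Real.exp 1 * Real.exp 1 := by
        rw [← Real.exp_add]; norm_num
      have h9 : 1 ≤ Q.card * Real.exp k := by
        have : 1 ≤ Real.exp (k : ℝ) := Real.one_le_exp (by positivity)
        nlinarith
      have h10 : 1 + 2 * Real.exp 2 ≤ Real.exp 3 := by
        rw [h6]
        have h11 : (7 : ℝ) ≤ Real.exp 2 := by rw [h8]; nlinarith
        nlinarith
      push_cast
      have h12 : (0 : ℝ) < Real.exp 2 := Real.exp_pos _
      calc 1 + 2 * (2 * (Y : ℝ) * Real.exp 2) ≤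
          Q.card * Real.exp k + 2 * (Q.card * Real.exp k * Real.exp 2) := by
            gcongr
        _ = Q.card * Real.exp k * (1 + 2 * Real.exp 2) := by ring
        _ ≤ Q.card * Real.exp k * Real.exp 3 := by gcongr
        _ = Q.card * Real.exp (k + 3) := by rw [h5]; ring
    refine (Finset.sum_le_sum h1).trans ?_
    rw [Finset.sum_const, nsmul_eq_mul]
  have hpm : (∑ x ∈ Q ×ˢ Q, E2 w (Nat.dist (x.1 + j) x.2)) ^ w ≤
      ((Q ×ˢ Q).card : ℝ) ^ (w - 1) * ∑ x ∈ Q ×ˢ Q, E2 w (Nat.dist (x.1 + j) x.2) ^ w := by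
    obtain ⟨m, hm⟩ : ∃ m, w = m + 1 := ⟨w - 1, by omega⟩
    rw [hm]
    simpa using pow_sum_le_card_mul_sum_pow (s := Q ×ˢ Q)
      (f := fun x => E2 (m + 1) (Nat.dist (x.1 + j) x.2)) (fun x _ => (E2_pos _ _).le) m
  have hcard : ((Q ×ˢ Q).card : ℝ) = (Q.card : ℝ) ^ 2 := by
    rw [card_product]
    push_cast
    ring
  set n : ℝ := (Q.card : ℝ) ^ 2 with hn
  have hn0 : 0 < n := by rw [hn]; positivity
  have hk0 : (0 : ℝ) < k := by linarith
  have hwr : (w : ℝ) = (k : ℝ) ^ 2 := by rw [hwdef]; push_cast; ring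
  have hexp : Real.exp ((k : ℝ) + 3) = Real.exp (((k : ℝ) + 3) / w) ^ w := by
    rw [← Real.exp_nat_mul, mul_div_cancel₀ _ (by rw [hwr]; positivity)]
  have hS : (∑ x ∈ Q ×ˢ Q, E2 w (Nat.dist (x.1 + j) x.2)) ^ w ≤
      (n * Real.exp (((k : ℝ) + 3) / w)) ^ w := by
    rw [mul_pow, ← hexp]
    refine hpm.trans ?_
    rw [hcard]
    calc n ^ (w - 1) * ∑ x ∈ Q ×ˢ Q, E2 w (Nat.dist (x.1 + j) x.2) ^ w
        ≤ n ^ (w - 1) * (Q.card * (Q.card * Real.exp (k + 3))) :=
          mul_le_mul_of_nonneg_left hmom (by positivity)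
      _ = n ^ (w - 1) * n * Real.exp (k + 3) := by rw [hn]; ring
      _ = n ^ w * Real.exp (k + 3) := by
          rw [← pow_succ, Nat.sub_add_cancel (by omega)]
  have hS2 := le_of_pow_le_pow_left₀ (by omega : w ≠ 0) (by positivity) hS
  have h1 : ((k : ℝ) + 3) / w ≤ 2 / k := by
    rw [hwr, div_le_div_iff₀ (by positivity) hk0]
    nlinarith
  have h2 : Real.exp (((k : ℝ) + 3) / w) ≤ 1 + 2 * (2 / k) :=
    (Real.exp_le_exp.mpr h1).trans (exp_le_lin _ (by positivity) (by
      rw [div_le_one hk0]; linarith))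
  rw [Finset.sum_sub_distrib, Finset.sum_const, nsmul_eq_mul, mul_one, hcard]
  calc ∑ x ∈ Q ×ˢ Q, E2 w (Nat.dist (x.1 + j) x.2) - n
      ≤ n * (1 + 2 * (2 / k)) - n := by
        have := mul_le_mul_of_nonneg_left h2 hn0.le
        linarith
    _ = n * (4 / k) := by ring

/-- Averages of `ES` over shifted differences. -/
theorem pair_window : ∃ C : ℝ, 1 ≤ C ∧ ∀ (Y W : ℕ) (Q : Finset ℕ), Q ⊆ Icc 1 Y → W ≤ Y →
    ∀ k : ℕ, 3 ≤ k → 2 * (Y : ℝ) ≤ Q.card * Real.exp k →
    ∑ j ∈ range (W + 1), ∑ x ∈ Q ×ˢ Q, ES (Nat.dist (x.1 + j) x.2).primeFactors ≤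
      C * (W + 1 + Real.log k) * (Q.card : ℝ) ^ 2 := by
  have he6 : 0 < Real.exp 6 := Real.exp_pos _
  have he2 : 1 ≤ Real.exp 2 := Real.one_le_exp (by norm_num)
  refine ⟨Real.exp 2 + 30 * Real.exp 6, by linarith, ?_⟩
  intro Y W Q hQ hW k hk hY
  have hk3 : (3 : ℝ) ≤ k := by exact_mod_cast hk
  have hk0 : (0 : ℝ) < k := by linarith
  have hw : 2 ≤ k ^ 2 := by nlinarith
  have hlogk : 0 ≤ Real.log k := Real.log_nonneg (by linarith)
  have hlogw : Real.log ((k ^ 2 : ℕ) : ℝ) = 2 * Real.log k := by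
    push_cast
    rw [Real.log_pow]
    push_cast
    ring
  have hlogk2 : Real.log k ≤ k := by
    have := Real.log_le_sub_one_of_pos hk0
    linarith
  set n : ℝ := (Q.card : ℝ) ^ 2 with hn
  have hn0 : 0 ≤ n := by rw [hn]; positivity
  have hcard : ((Q ×ˢ Q).card : ℝ) = n := by
    rw [card_product, hn]
    push_cast
    ring
  have e1 : ∑ j ∈ range (W + 1), ∑ x ∈ Q ×ˢ Q, ES (Nat.dist (x.1 + j) x.2).primeFactors =
      ∑ x ∈ Q ×ˢ Q, ∑ j ∈ range (W + 1), E1 (k ^ 2) (Nat.dist (x.1 + j) x.2) +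
      ∑ j ∈ range (W + 1), ∑ x ∈ Q ×ˢ Q,
        E1 (k ^ 2) (Nat.dist (x.1 + j) x.2) * (E2 (k ^ 2) (Nat.dist (x.1 + j) x.2) - 1) := by
    rw [Finset.sum_comm (s := Q ×ˢ Q), ← Finset.sum_add_distrib]
    apply Finset.sum_congr rfl
    intro j _
    rw [← Finset.sum_add_distrib]
    apply Finset.sum_congr rfl
    intro x _
    rw [ES_split (k ^ 2)]
    ring
  have h1 : ∑ x ∈ Q ×ˢ Q, ∑ j ∈ range (W + 1), E1 (k ^ 2) (Nat.dist (x.1 + j) x.2) ≤
      n * (((W : ℝ) + 1) * Real.exp 2 + 3 * Real.exp 6 * (2 * Real.log k)) := by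
    refine (Finset.sum_le_sum fun x _ => E1_sum (k ^ 2) W x.1 x.2 hw).trans ?_
    rw [Finset.sum_const, nsmul_eq_mul, hcard, hlogw]
  have h2 : ∑ j ∈ range (W + 1), ∑ x ∈ Q ×ˢ Q,
        E1 (k ^ 2) (Nat.dist (x.1 + j) x.2) * (E2 (k ^ 2) (Nat.dist (x.1 + j) x.2) - 1) ≤
      ((W : ℝ) + 1) * (24 * Real.exp 6 * n) := by
    have h3 : ∀ j ∈ range (W + 1), ∑ x ∈ Q ×ˢ Q,
        E1 (k ^ 2) (Nat.dist (x.1 + j) x.2) * (E2 (k ^ 2) (Nat.dist (x.1 + j) x.2) - 1) ≤
        24 * Real.exp 6 * n := by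
      intro j hj
      rw [mem_range] at hj
      have h4 := E2_avg Y W j Q hQ hW (by omega) k hk hY
      calc ∑ x ∈ Q ×ˢ Q,
          E1 (k ^ 2) (Nat.dist (x.1 + j) x.2) * (E2 (k ^ 2) (Nat.dist (x.1 + j) x.2) - 1)
          ≤ ∑ x ∈ Q ×ˢ Q,
            3 * Real.exp 6 * (2 * Real.log k) * (E2 (k ^ 2) (Nat.dist (x.1 + j) x.2) - 1) := by
            apply Finset.sum_le_sum
            intro x _
            have h5 := E1_le (k ^ 2) (Nat.dist (x.1 + j) x.2) hw
            rw [hlogw] at h5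
            have h6 := one_le_E2 (k ^ 2) (Nat.dist (x.1 + j) x.2)
            exact mul_le_mul_of_nonneg_right h5 (by linarith)
        _ = 3 * Real.exp 6 * (2 * Real.log k) *
            ∑ x ∈ Q ×ˢ Q, (E2 (k ^ 2) (Nat.dist (x.1 + j) x.2) - 1) := by
            rw [Finset.mul_sum]
        _ ≤ 3 * Real.exp 6 * (2 * Real.log k) * (n * (4 / k)) :=
            mul_le_mul_of_nonneg_left h4 (by positivity)
        _ = 24 * Real.exp 6 * n * (Real.log k / k) := by
            field_simp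
            ring
        _ ≤ 24 * Real.exp 6 * n * 1 := by
            refine mul_le_mul_of_nonneg_left ?_ (by positivity)
            rw [div_le_one hk0]
            exact hlogk2
        _ = _ := mul_one _
    refine (Finset.sum_le_sum h3).trans (le_of_eq ?_)
    rw [Finset.sum_const, card_range, nsmul_eq_mul]
    push_cast
    ring
  rw [e1]
  have hW0 : (0 : ℝ) ≤ W := Nat.cast_nonneg _
  have h7 : 0 ≤ n * Real.log k * Real.exp 2 := by positivity
  have h8 : 0 ≤ n * Real.log k * Real.exp 6 := by positivity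
  have h9 : 0 ≤ n * ((W : ℝ) + 1) * Real.exp 6 := by positivity
  nlinarith

end Pool.Agent.Lib.MP_e3f158_nt.PSW
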