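import Mathlib

/-!
# MP_e3f158_nt: the second moment of the number of sums in a window
-/

namespace Pool.Agent.Lib.MP_e3f158_nt.PSW

open Finset

/-- the `n ∈ [X, 2X]` such that `[n, n + W]` contains a sum of an element of `Q` and one of `P` -/
def winSet (Q P : Finset ℕ) (X W : ℕ) : Finset ℕ :=
  (Icc X (2 * X)).filter fun n => ∃ x ∈ (Q ×ˢ P : Finset (ℕ × ℕ)), n ≤ x.1 + x.2 ∧ x.1 + x.2 ≤ n + W

private theorem card_bdist (P : Finset ℕ) (B : ℕ → ℝ)
    (hB : ∀ h, 1 ≤ h → ((P.filter fun n => n + h ∈ P).card : ℝ) ≤ B h) (q q' j : ℕ)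
    (hne : q + j ≠ q') :
    (((P ×ˢ P).filter fun y => q + y.1 + j = q' + y.2).card : ℝ) ≤ B (Nat.dist (q + j) q') := by
  rcases lt_or_gt_of_ne hne with hlt | hlt
  · have hd : Nat.dist (q + j) q' = q' - (q + j) := Nat.dist_eq_sub_of_le hlt.le
    refine le_trans ?_ (hB _ (by rw [hd]; omega))
    have h3 : ((P ×ˢ P).filter fun y => q + y.1 + j = q' + y.2).card ≤
        (P.filter fun n => n + Nat.dist (q + j) q' ∈ P).card := by
      refine card_le_card_of_injOn (fun y => y.2) ?_ ?_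
      · intro y hy
        rw [mem_coe, mem_filter, mem_product] at hy
        rw [mem_coe, mem_filter]
        refine ⟨hy.1.2, ?_⟩
        have e : y.2 + Nat.dist (q + j) q' = y.1 := by
          rw [hd]
          omega
        show y.2 + Nat.dist (q + j) q' ∈ P
        rw [e]
        exact hy.1.1
      · intro y hy y' hy' h
        rw [mem_coe, mem_filter] at hy hy'
        have h' : y.2 = y'.2 := h
        exact Prod.ext (by omega) h'
    exact_mod_cast h3
  · have hd : Nat.dist (q + j) q' = q + j - q' := Nat.dist_eq_sub_of_le_right hlt.le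
    refine le_trans ?_ (hB _ (by rw [hd]; omega))
    have h3 : ((P ×ˢ P).filter fun y => q + y.1 + j = q' + y.2).card ≤
        (P.filter fun n => n + Nat.dist (q + j) q' ∈ P).card := by
      refine card_le_card_of_injOn (fun y => y.1) ?_ ?_
      · intro y hy
        rw [mem_coe, mem_filter, mem_product] at hy
        rw [mem_coe, mem_filter]
        refine ⟨hy.1.1, ?_⟩
        have e : y.1 + Nat.dist (q + j) q' = y.2 := by
          rw [hd]
          omega
        show y.1 + Nat.dist (q + j) q' ∈ P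
        rw [e]
        exact hy.1.2
      · intro y hy y' hy' h
        rw [mem_coe, mem_filter] at hy hy'
        have h' : y.1 = y'.1 := h
        exact Prod.ext h' (by omega)
    exact_mod_cast h3

private theorem card_beq (P : Finset ℕ) (q q' j : ℕ) :
    (((P ×ˢ P).filter fun y => q + y.1 + j = q' + y.2).card : ℝ) ≤ P.card := by
  have h3 : ((P ×ˢ P).filter fun y => q + y.1 + j = q' + y.2).card ≤ P.card := by
    refine card_le_card_of_injOn (fun y => y.1) ?_ ?_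
    · intro y hy
      rw [mem_coe, mem_filter, mem_product] at hy
      exact hy.1.1
    · intro y hy y' hy' h
      rw [mem_coe, mem_filter] at hy hy'
      have h' : y.1 = y'.1 := h
      exact Prod.ext h' (by omega)
  exact_mod_cast h3

/-- pairs of sums with difference `j` -/
private def cj (Q P : Finset ℕ) (j : ℕ) : ℕ :=
  (((Q ×ˢ P) ×ˢ (Q ×ˢ P)).filter fun z => z.1.1 + z.1.2 + j = z.2.1 + z.2.2).card

private theorem cj_le (Q P : Finset ℕ) (B : ℕ → ℝ) (hB0 : ∀ h, 0 ≤ B h)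
    (hB : ∀ h, 1 ≤ h → ((P.filter fun n => n + h ∈ P).card : ℝ) ≤ B h) (j : ℕ) :
    (cj Q P j : ℝ) ≤ Q.card * P.card + ∑ x ∈ Q ×ˢ Q, B (Nat.dist (x.1 + j) x.2) := by
  classical
  have h1 : (cj Q P j : ℝ) =
      ∑ x ∈ Q ×ˢ Q, (((P ×ˢ P).filter fun y => x.1 + y.1 + j = x.2 + y.2).card : ℝ) := by
    unfold cj
    have h2 : (((Q ×ˢ P) ×ˢ (Q ×ˢ P)).filter fun z => z.1.1 + z.1.2 + j = z.2.1 + z.2.2).card =
        (((Q ×ˢ Q) ×ˢ (P ×ˢ P)).filter fun z => z.1.1 + z.2.1 + j = z.1.2 + z.2.2).card := by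
      refine card_bij (fun z _ => ((z.1.1, z.2.1), (z.1.2, z.2.2))) ?_ ?_ ?_
      · intro z hz
        simp only [mem_filter, mem_product] at hz ⊢
        exact ⟨⟨⟨hz.1.1.1, hz.1.2.1⟩, ⟨hz.1.1.2, hz.1.2.2⟩⟩, hz.2⟩
      · rintro ⟨⟨a, b⟩, ⟨c, d⟩⟩ _ ⟨⟨a', b'⟩, ⟨c', d'⟩⟩ _ h
        simp only [Prod.mk.injEq] at h ⊢
        exact ⟨⟨h.1.1, h.2.1⟩, ⟨h.1.2, h.2.2⟩⟩
      · rintro ⟨⟨a, b⟩, ⟨c, d⟩⟩ hz
        simp only [mem_filter, mem_product] at hz
        refine ⟨((a, c), (b, d)), ?_, rfl⟩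
        simp only [mem_filter, mem_product]
        exact ⟨⟨⟨hz.1.1.1, hz.1.2.1⟩, ⟨hz.1.1.2, hz.1.2.2⟩⟩, hz.2⟩
    rw [h2, card_filter, sum_product]
    push_cast
    refine sum_congr rfl fun x _ => ?_
    rw [card_filter]
    push_cast
    rfl
  rw [h1, ← Finset.sum_filter_add_sum_filter_not (Q ×ˢ Q) (fun x => x.1 + j = x.2)]
  refine add_le_add ?_ ?_
  · refine (sum_le_sum fun x _ => card_beq P x.1 x.2 j).trans ?_
    rw [sum_const, nsmul_eq_mul]
    refine mul_le_mul_of_nonneg_right ?_ (Nat.cast_nonneg _)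
    have h3 : ((Q ×ˢ Q).filter fun x => x.1 + j = x.2).card ≤ Q.card := by
      refine card_le_card_of_injOn (fun x => x.1) ?_ ?_
      · intro x hx
        rw [mem_coe, mem_filter, mem_product] at hx
        exact hx.1.1
      · intro x hx x' hx' h
        rw [mem_coe, mem_filter] at hx hx'
        have h' : x.1 = x'.1 := h
        exact Prod.ext h' (by omega)
    exact_mod_cast h3
  · calc ∑ x ∈ (Q ×ˢ Q).filter (fun x => ¬ x.1 + j = x.2),
          (((P ×ˢ P).filter fun y => x.1 + y.1 + j = x.2 + y.2).card : ℝ)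
        ≤ ∑ x ∈ (Q ×ˢ Q).filter (fun x => ¬ x.1 + j = x.2), B (Nat.dist (x.1 + j) x.2) :=
          sum_le_sum fun x hx => card_bdist P B hB x.1 x.2 j (mem_filter.1 hx).2
      _ ≤ ∑ x ∈ Q ×ˢ Q, B (Nat.dist (x.1 + j) x.2) :=
          sum_le_sum_of_subset_of_nonneg (filter_subset _ _) fun x _ _ => hB0 _

/-- The window count. -/
theorem window_cs (Q P : Finset ℕ) (X W : ℕ)
    (hlo : ∀ x ∈ Q ×ˢ P, X + W ≤ x.1 + x.2) (hhi : ∀ x ∈ Q ×ˢ P, x.1 + x.2 ≤ 2 * X)
    (B : ℕ → ℝ) (hB0 : ∀ h, 0 ≤ B h)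
    (hB : ∀ h, 1 ≤ h → ((P.filter fun n => n + h ∈ P).card : ℝ) ≤ B h) :
    ((W : ℝ) + 1) * ((Q.card : ℝ) * P.card) ^ 2 ≤
      ((winSet Q P X W).card : ℝ) * (2 * (((W : ℝ) + 1) * (Q.card * P.card) +
        ∑ j ∈ range (W + 1), ∑ x ∈ Q ×ˢ Q, B (Nat.dist (x.1 + j) x.2))) := by
  classical
  set S := Q ×ˢ P with hS
  set U := winSet Q P X W with hU
  have hScard : (S.card : ℝ) = Q.card * P.card := by
    rw [hS, card_product]
    push_cast
    rfl
  -- the windows containing a given sum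
  have hwin : ∀ x ∈ S, (U.filter fun n => n ≤ x.1 + x.2 ∧ x.1 + x.2 ≤ n + W).card = W + 1 := by
    intro x hx
    have h1 := hlo x hx
    have h2 := hhi x hx
    have h3 : (U.filter fun n => n ≤ x.1 + x.2 ∧ x.1 + x.2 ≤ n + W) =
        Icc (x.1 + x.2 - W) (x.1 + x.2) := by
      ext n
      rw [hU, winSet, mem_filter, mem_filter, mem_Icc, mem_Icc]
      constructor
      · rintro ⟨⟨⟨h4, h5⟩, -⟩, h6, h7⟩
        omega
      · rintro ⟨h4, h5⟩
        refine ⟨⟨⟨by omega, by omega⟩, x, hx, by omega, by omega⟩, by omega, by omega⟩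
    rw [h3, Nat.card_Icc]
    omega
  set r : ℕ → ℕ := fun n => (S.filter fun x => n ≤ x.1 + x.2 ∧ x.1 + x.2 ≤ n + W).card with hr
  have hsum1 : ∑ n ∈ U, (r n : ℝ) = ((W : ℝ) + 1) * S.card := by
    have h1 : ∑ n ∈ U, r n = (W + 1) * S.card := by
      simp only [hr, card_filter]
      rw [sum_comm]
      have h2 : ∀ x ∈ S, ∑ n ∈ U, (if n ≤ x.1 + x.2 ∧ x.1 + x.2 ≤ n + W then 1 else 0) = W + 1 := by
        intro x hx
        rw [← card_filter]
        exact hwin x hx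
      rw [sum_congr rfl h2, sum_const, smul_eq_mul, mul_comm]
    have h3 : ((∑ n ∈ U, r n : ℕ) : ℝ) = (((W + 1) * S.card : ℕ) : ℝ) := by rw [h1]
    push_cast at h3
    exact h3
  have hsum2 : ∑ n ∈ U, (r n : ℝ) ^ 2 ≤ ((W : ℝ) + 1) * (2 * ∑ j ∈ range (W + 1), (cj Q P j : ℝ)) := by
    have h1 : ∑ n ∈ U, r n ^ 2 ≤ (W + 1) * (2 * ∑ j ∈ range (W + 1), cj Q P j) := by
      have h2 : ∀ n, r n ^ 2 = ∑ z ∈ S ×ˢ S, if (n ≤ z.1.1 + z.1.2 ∧ z.1.1 + z.1.2 ≤ n + W) ∧
          (n ≤ z.2.1 + z.2.2 ∧ z.2.1 + z.2.2 ≤ n + W) then 1 else 0 := by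
        intro n
        rw [← card_filter, filter_product (fun x : ℕ × ℕ => n ≤ x.1 + x.2 ∧ x.1 + x.2 ≤ n + W)
          (fun x : ℕ × ℕ => n ≤ x.1 + x.2 ∧ x.1 + x.2 ≤ n + W), card_product, sq]
      simp only [h2]
      rw [sum_comm]
      have h3 : ∀ z ∈ S ×ˢ S, ∑ n ∈ U, (if (n ≤ z.1.1 + z.1.2 ∧ z.1.1 + z.1.2 ≤ n + W) ∧
          (n ≤ z.2.1 + z.2.2 ∧ z.2.1 + z.2.2 ≤ n + W) then 1 else 0) ≤
          (W + 1) * (∑ j ∈ range (W + 1), (if z.1.1 + z.1.2 + j = z.2.1 + z.2.2 then 1 else 0) +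
            ∑ j ∈ range (W + 1), (if z.2.1 + z.2.2 + j = z.1.1 + z.1.2 then 1 else 0)) := by
        intro z hz
        rw [mem_product] at hz
        rw [← card_filter]
        by_cases hle : z.1.1 + z.1.2 ≤ z.2.1 + z.2.2 + W ∧ z.2.1 + z.2.2 ≤ z.1.1 + z.1.2 + W
        · have h4 : (U.filter fun n => (n ≤ z.1.1 + z.1.2 ∧ z.1.1 + z.1.2 ≤ n + W) ∧
              (n ≤ z.2.1 + z.2.2 ∧ z.2.1 + z.2.2 ≤ n + W)).card ≤ W + 1 := by
            rw [← hwin z.1 hz.1]
            apply card_le_card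
            intro n hn
            rw [mem_filter] at hn ⊢
            exact ⟨hn.1, hn.2.1⟩
          refine h4.trans ?_
          have h5 : 1 ≤ ∑ j ∈ range (W + 1), (if z.1.1 + z.1.2 + j = z.2.1 + z.2.2 then 1 else 0) +
              ∑ j ∈ range (W + 1), (if z.2.1 + z.2.2 + j = z.1.1 + z.1.2 then 1 else 0) := by
            rcases le_total (z.1.1 + z.1.2) (z.2.1 + z.2.2) with h6 | h6
            · have h7 : 1 ≤ ∑ j ∈ range (W + 1),
                  (if z.1.1 + z.1.2 + j = z.2.1 + z.2.2 then 1 else 0) := by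
                refine le_trans ?_ (single_le_sum (f := fun j =>
                  if z.1.1 + z.1.2 + j = z.2.1 + z.2.2 then 1 else 0) (fun i _ => Nat.zero_le _)
                  (mem_range.2 (show z.2.1 + z.2.2 - (z.1.1 + z.1.2) < W + 1 by omega)))
                rw [if_pos (by omega)]
              omega
            · have h7 : 1 ≤ ∑ j ∈ range (W + 1),
                  (if z.2.1 + z.2.2 + j = z.1.1 + z.1.2 then 1 else 0) := by
                refine le_trans ?_ (single_le_sum (f := fun j =>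
                  if z.2.1 + z.2.2 + j = z.1.1 + z.1.2 then 1 else 0) (fun i _ => Nat.zero_le _)
                  (mem_range.2 (show z.1.1 + z.1.2 - (z.2.1 + z.2.2) < W + 1 by omega)))
                rw [if_pos (by omega)]
              omega
          calc W + 1 = (W + 1) * 1 := (mul_one _).symm
            _ ≤ _ := Nat.mul_le_mul_left _ h5
        · have h4 : (U.filter fun n => (n ≤ z.1.1 + z.1.2 ∧ z.1.1 + z.1.2 ≤ n + W) ∧
              (n ≤ z.2.1 + z.2.2 ∧ z.2.1 + z.2.2 ≤ n + W)) = ∅ := by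
            rw [filter_eq_empty_iff]
            intro n _ hn
            apply hle
            omega
          rw [h4, card_empty]
          exact Nat.zero_le _
      refine (sum_le_sum h3).trans ?_
      rw [← mul_sum, sum_add_distrib]
      refine Nat.mul_le_mul_left _ ?_
      have h5 : ∑ z ∈ S ×ˢ S, ∑ j ∈ range (W + 1),
          (if z.1.1 + z.1.2 + j = z.2.1 + z.2.2 then 1 else 0) = ∑ j ∈ range (W + 1), cj Q P j := by
        rw [sum_comm]
        refine sum_congr rfl fun j _ => ?_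
        rw [← card_filter]
        rfl
      have h6 : ∑ z ∈ S ×ˢ S, ∑ j ∈ range (W + 1),
          (if z.2.1 + z.2.2 + j = z.1.1 + z.1.2 then 1 else 0) = ∑ j ∈ range (W + 1), cj Q P j := by
        rw [sum_comm]
        refine sum_congr rfl fun j _ => ?_
        rw [← card_filter]
        unfold cj
        refine card_bij (fun z _ => (z.2, z.1)) ?_ ?_ ?_
        · intro z hz
          rw [mem_filter, mem_product] at hz
          rw [mem_filter, mem_product]
          exact ⟨⟨hz.1.2, hz.1.1⟩, hz.2⟩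
        · rintro ⟨a, b⟩ _ ⟨c, d⟩ _ h
          rw [Prod.mk.injEq] at h
          rw [Prod.mk.injEq]
          exact ⟨h.2, h.1⟩
        · rintro ⟨a, b⟩ hz
          rw [mem_filter, mem_product] at hz
          refine ⟨(b, a), ?_, rfl⟩
          rw [mem_filter, mem_product]
          exact ⟨⟨hz.1.2, hz.1.1⟩, hz.2⟩
      rw [h5, h6]
      omega
    have h7 : ((∑ n ∈ U, r n ^ 2 : ℕ) : ℝ) ≤
        (((W + 1) * (2 * ∑ j ∈ range (W + 1), cj Q P j) : ℕ) : ℝ) := by exact_mod_cast h1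
    push_cast at h7
    exact h7
  have hcj : ∑ j ∈ range (W + 1), (cj Q P j : ℝ) ≤ ((W : ℝ) + 1) * (Q.card * P.card) +
        ∑ j ∈ range (W + 1), ∑ x ∈ Q ×ˢ Q, B (Nat.dist (x.1 + j) x.2) := by
    refine (sum_le_sum fun j _ => cj_le Q P B hB0 hB j).trans (le_of_eq ?_)
    rw [sum_add_distrib, sum_const, card_range, nsmul_eq_mul]
    push_cast
    rfl
  have hCS : (∑ n ∈ U, (r n : ℝ)) ^ 2 ≤ U.card * ∑ n ∈ U, (r n : ℝ) ^ 2 :=
    sq_sum_le_card_mul_sum_sq
  rw [hsum1] at hCS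
  have hW0 : (0 : ℝ) < (W : ℝ) + 1 := by positivity
  have h8 : (((W : ℝ) + 1) * S.card) ^ 2 ≤
      U.card * (((W : ℝ) + 1) * (2 * (((W : ℝ) + 1) * (Q.card * P.card) +
        ∑ j ∈ range (W + 1), ∑ x ∈ Q ×ˢ Q, B (Nat.dist (x.1 + j) x.2)))) := by
    refine hCS.trans (mul_le_mul_of_nonneg_left (hsum2.trans ?_) (Nat.cast_nonneg _))
    refine mul_le_mul_of_nonneg_left ?_ hW0.le
    linarith
  have h9 : ((W : ℝ) + 1) * (((W : ℝ) + 1) * ((Q.card : ℝ) * P.card) ^ 2) ≤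
      ((W : ℝ) + 1) * (U.card * (2 * (((W : ℝ) + 1) * (Q.card * P.card) +
        ∑ j ∈ range (W + 1), ∑ x ∈ Q ×ˢ Q, B (Nat.dist (x.1 + j) x.2)))) := by
    rw [hScard] at h8
    calc ((W : ℝ) + 1) * (((W : ℝ) + 1) * ((Q.card : ℝ) * P.card) ^ 2) =
        (((W : ℝ) + 1) * (Q.card * P.card)) ^ 2 := by ring
      _ ≤ _ := h8
      _ = _ := by ring
  exact le_of_mul_le_mul_left h9 hW0

end Pool.Agent.Lib.MP_e3f158_nt.PSW
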