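import Pool.Agent.Lib.MP_e3f158_nt.D2.TSieve
import Pool.Agent.Lib.MP_e3f158_nt.PSW.Cheb
import Pool.Agent.Lib.MP_e3f158_nt.PSW.PairWin
import Pool.Agent.Lib.MP_e3f158_nt.PSW.Second
import Pool.Agent.Lib.MP_e3f158_nt.PSW.Dyadic

/-!
# MP_e3f158_nt: even integers of type `(a, 0)` in short windows, uniformly in `a`: the main bound
-/

namespace Pool.Agent.Lib.MP_e3f158_nt.PSW

open Finset Filter D2

/-- the small `a`-primes -/
noncomputable def Qs (a Y : ℕ) : Finset ℕ :=
  (Icc 2 (pic (a + 1) Y)).image fun z => ipr a z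

/-- the large primes -/
def Ps (X Y : ℕ) : Finset ℕ := (Ioc (X + Y) (2 * X - Y)).filter Nat.Prime

theorem Qs_card (a Y : ℕ) : (Qs a Y).card = pic (a + 1) Y - 1 := by
  unfold Qs
  rw [card_image_of_injOn, Nat.card_Icc]
  · omega
  · intro z hz z' hz' h
    rw [mem_coe, mem_Icc] at hz hz'
    have h' : pr^[a + 1] z = pr^[a + 1] z' := h
    rcases lt_trichotomy z z' with h1 | h1 | h1
    · have := iter_strictMono (a + 1) z z' (by omega) h1
      omega
    · exact h1
    · have := iter_strictMono (a + 1) z' z (by omega) h1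
      omega

theorem Qs_mem {a Y q : ℕ} (hq : q ∈ Qs a Y) :
    ∃ z, 1 ≤ z ∧ ipr a z = q ∧ q.Prime ∧ 3 ≤ q ∧ q ≤ Y := by
  unfold Qs at hq
  rw [mem_image] at hq
  obtain ⟨z, hz, rfl⟩ := hq
  rw [mem_Icc] at hz
  refine ⟨z, by omega, rfl, ipr_prime a z, ?_, ?_⟩
  · have h1 : ipr a 1 < ipr a z := iter_strictMono (a + 1) 1 z (le_refl _) (by omega)
    have h2 := (ipr_prime a 1).two_le
    omega
  · exact (iter_le_iff (a + 1) z Y (by omega)).2 hz.2

theorem sum_mem {a Y X q p : ℕ} (hq : q ∈ Qs a Y) (hp : p ∈ Ps X Y) :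
    Even (q + p) ∧ HasRep a 0 (q + p) := by
  obtain ⟨z, hz, hzq, hqp, hq3, hqY⟩ := Qs_mem hq
  unfold Ps at hp
  rw [mem_filter, mem_Ioc] at hp
  obtain ⟨⟨hp1, hp2⟩, hpp⟩ := hp
  refine ⟨(odd_of_prime_gt hqp (by omega)).add_odd (odd_of_prime_gt hpp (by omega)), ?_⟩
  have hy : ipr 0 (Nat.count Nat.Prime p + 1) = p := by
    show pr (Nat.count Nat.Prime p + 1) = p
    rw [pr, Nat.add_sub_cancel]
    exact Nat.nth_count hpp
  refine ⟨z, Nat.count Nat.Prime p + 1, hz, by omega, by rw [hzq, hy], ?_⟩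
  rw [hzq, hy]
  omega

theorem Ps_card (X Y : ℕ) : ((Ioc X (2 * X)).filter Nat.Prime).card ≤ (Ps X Y).card + 2 * Y := by
  have h2 : (Ioc X (2 * X)).filter Nat.Prime ⊆
      Ps X Y ∪ (Ioc X (X + Y) ∪ Ioc (2 * X - Y) (2 * X)) := by
    intro p hp
    rw [mem_filter, mem_Ioc] at hp
    rw [mem_union, mem_union, Ps, mem_filter, mem_Ioc, mem_Ioc, mem_Ioc]
    by_cases h3 : p ≤ X + Y
    · exact Or.inr (Or.inl ⟨by omega, h3⟩)
    · by_cases h4 : p ≤ 2 * X - Y
      · exact Or.inl ⟨⟨by omega, h4⟩, hp.2⟩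
      · exact Or.inr (Or.inr ⟨by omega, by omega⟩)
  refine (card_le_card h2).trans ((card_union_le _ _).trans ?_)
  have h3 := card_union_le (Ioc X (X + Y)) (Ioc (2 * X - Y) (2 * X))
  rw [Nat.card_Ioc, Nat.card_Ioc] at h3
  omega

theorem dset_pair {h : ℕ} (hh : 1 ≤ h) : dset {0, h} = h.primeFactors := by
  unfold dset
  have e : ({0, h} : Finset ℕ).offDiag = {(0, h), (h, 0)} := by
    ext ⟨x, y⟩
    simp only [mem_offDiag, mem_insert, mem_singleton, Prod.mk.injEq]
    omega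
  rw [e, prod_insert (by
    rw [mem_singleton, Prod.mk.injEq]
    omega), prod_singleton]
  have e1 : Nat.dist 0 h = h := by
    rw [Nat.dist_eq_sub_of_le (Nat.zero_le h)]
    omega
  have e2 : Nat.dist h 0 = h := by
    rw [Nat.dist_eq_sub_of_le_right (Nat.zero_le h)]
    omega
  simp only [e1, e2]
  rw [← sq, Nat.primeFactors_pow _ (by norm_num)]

/-- The size condition. -/
theorem size_cond (a : ℕ) (t : ℝ) (ht : 16 * (((a : ℝ) + 2) * Real.log (a + 2)) ≤ t) :
    2 * (2 * t) ^ (a + 1) ≤ Real.exp (t / 2) := by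
  have ha0 : (0 : ℝ) ≤ a := Nat.cast_nonneg a
  set b : ℝ := (a : ℝ) + 2 with hb
  have hb2 : 2 ≤ b := by rw [hb]; linarith
  have hl2 := Real.log_two_gt_d9
  have hl2' := Real.log_two_lt_d9
  have hlb : Real.log 2 ≤ Real.log b := Real.log_le_log (by norm_num) hb2
  have hbl : 1 ≤ b * Real.log b := by nlinarith
  have ht1 : 1 ≤ t := by linarith
  have ht0 : 0 < t := by linarith
  have h1 : Real.log t ≤ t / (8 * b) + (3 * Real.log 2 + Real.log b) - 1 := by
    have h2 := Real.log_le_sub_one_of_pos (show 0 < t / (8 * b) by positivity)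
    rw [Real.log_div ht0.ne' (by positivity), Real.log_mul (by norm_num) (by positivity),
      show (8 : ℝ) = 2 ^ 3 by norm_num, Real.log_pow] at h2
    push_cast at h2
    norm_num at h2 ⊢
    linarith
  have hlt : 0 ≤ Real.log t := Real.log_nonneg ht1
  have h3 : Real.log 2 + ((a : ℝ) + 1) * (Real.log 2 + Real.log t) ≤ t / 2 := by
    have h4 : Real.log 2 + ((a : ℝ) + 1) * (Real.log 2 + Real.log t) ≤
        b * (Real.log 2 + Real.log t) := by
      rw [hb]
      nlinarith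
    have h5 : b * (Real.log 2 + Real.log t) ≤
        b * (Real.log 2 + (t / (8 * b) + (3 * Real.log 2 + Real.log b) - 1)) := by
      gcongr
    have h6 : b * (Real.log 2 + (t / (8 * b) + (3 * Real.log 2 + Real.log b) - 1)) =
        t / 8 + b * (4 * Real.log 2 - 1 + Real.log b) := by
      field_simp
      ring
    have h7 : b * (4 * Real.log 2 - 1 + Real.log b) ≤ b * (4 * Real.log b) := by
      refine mul_le_mul_of_nonneg_left ?_ (by linarith)
      linarith
    nlinarith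
  have h8 : Real.log (2 * (2 * t) ^ (a + 1)) ≤ t / 2 := by
    rw [Real.log_mul (by norm_num) (by positivity), Real.log_pow,
      Real.log_mul (by norm_num) ht0.ne']
    push_cast
    exact h3
  rwa [Real.log_le_iff_le_exp (by positivity)] at h8

/-- The bound for `log k`. -/
theorem logk_bound (a k : ℕ) (u D : ℝ) (hu : (a : ℝ) + 2 ≤ u) (hD0 : 0 < D) (hk3 : 3 ≤ k)
    (hD : Real.log D ≤ ((a : ℝ) + 1) * (5 + u)) (hk : (k : ℝ) ≤ Real.log (4 * D) + 4) :
    Real.log k ≤ 5 * Real.log u := by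
  have ha0 : (0 : ℝ) ≤ a := Nat.cast_nonneg a
  have hu2 : 2 ≤ u := by linarith
  have hl2 := Real.log_two_gt_d9
  have hl2' := Real.log_two_lt_d9
  have hlog4 : Real.log 4 = 2 * Real.log 2 := by
    rw [show (4 : ℝ) = 2 ^ 2 by norm_num, Real.log_pow]; norm_num
  rw [Real.log_mul (by norm_num) hD0.ne', hlog4] at hk
  have h1 : (k : ℝ) ≤ 8 * u ^ 2 := by nlinarith
  have hk0 : (0 : ℝ) < k := by exact_mod_cast (by omega : 0 < k)
  have h2 := Real.log_le_log hk0 h1
  rw [Real.log_mul (by norm_num) (by positivity), Real.log_pow,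
    show (8 : ℝ) = 2 ^ 3 by norm_num, Real.log_pow] at h2
  push_cast at h2
  have h3 : Real.log 2 ≤ Real.log u := Real.log_le_log (by norm_num) hu2
  linarith

end Pool.Agent.Lib.MP_e3f158_nt.PSW
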