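import Pool.Agent.Lib.MP_e3f158_nt.PSW.Main
import Pool.Agent.Lib.MP_e3f158_nt.Lower

/-!
# MP_e3f158_nt: even integers of type `(a, 0)` in short windows, uniformly in `a`
-/

namespace Pool.Agent.Lib.MP_e3f158_nt.PSW

open Finset Filter D2

/-- the integers `n ∈ [X, 2X]` with an even integer of type `(a, 0)` in `[n, n + W]` -/
def NearRep (a X W : ℕ) : Set ℕ :=
  {n : ℕ | X ≤ n ∧ n ≤ 2 * X ∧ ∃ m, n ≤ m ∧ m ≤ n + W ∧ Even m ∧ HasRep a 0 m}

theorem nearRep_finite (a X W : ℕ) : (NearRep a X W).Finite :=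
  (Set.finite_Icc X (2 * X)).subset fun _ hn => ⟨hn.1, hn.2.1⟩

theorem nearRep_mono (a X : ℕ) {W W' : ℕ} (h : W ≤ W') :
    (Set.ncard (NearRep a X W) : ℝ) ≤ Set.ncard (NearRep a X W') := by
  have h1 : NearRep a X W ⊆ NearRep a X W' := by
    rintro n ⟨h1, h2, m, h3, h4, h5⟩
    exact ⟨h1, h2, m, h3, by omega, h5⟩
  exact_mod_cast Set.ncard_le_ncard h1 (nearRep_finite a X W')

theorem half_min (w l : ℝ) (hw : 0 < w) (hl : 0 < l) : 1 / 2 * min 1 (w / l) ≤ w / (w + l) := by
  rw [le_div_iff₀ (by linarith)]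
  rcases le_total l w with h | h
  · have h1 : min 1 (w / l) ≤ 1 := min_le_left _ _
    nlinarith
  · have h1 : min 1 (w / l) ≤ w / l := min_le_right _ _
    have h2 : w / l * l = w := div_mul_cancel₀ _ hl.ne'
    have h3 : 0 ≤ w / l := by positivity
    nlinarith

theorem T_ge (a : ℕ) : 1 ≤ ((a : ℝ) + 2) * Real.log (a + 2) := by
  have ha0 : (0 : ℝ) ≤ a := Nat.cast_nonneg a
  have hl2 := Real.log_two_gt_d9
  have hlb : Real.log 2 ≤ Real.log ((a : ℝ) + 2) := Real.log_le_log (by norm_num) (by linarith)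
  have : (2 : ℝ) * Real.log 2 ≤ ((a : ℝ) + 2) * Real.log (a + 2) :=
    mul_le_mul (by linarith) hlb (by linarith) (by linarith)
  linarith

theorem big_range : ∃ c : ℝ, 0 < c ∧ ∃ X1 : ℕ, 1 ≤ X1 ∧ ∀ a X W : ℕ, X1 ≤ X →
    Real.exp (32 * (((a : ℝ) + 2) * Real.log (a + 2))) ≤ X →
    c * (X * min 1 (((W : ℝ) + 1) / Real.log (a + 2 + Real.log (Real.log (Real.log X))))) ≤
      (Set.ncard (NearRep a X W) : ℝ) := by
  obtain ⟨c, hc, X0, hcore⟩ := core
  have hL : Tendsto (fun N : ℕ => Real.log N) atTop atTop :=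
    Real.tendsto_log_atTop.comp tendsto_natCast_atTop_atTop
  obtain ⟨X1, hX1⟩ := eventually_atTop.1 (hL.eventually_ge_atTop 16)
  refine ⟨c / 2, by positivity, max (max X0 X1) 1, le_max_right _ _, ?_⟩
  intro a X W hX hXa
  have hXX0 : X0 ≤ X := (le_max_left _ _).trans ((le_max_left _ _).trans hX)
  have g6 := hX1 X ((le_max_right _ _).trans ((le_max_left _ _).trans hX))
  have hXpos : 1 ≤ X := (le_max_right _ _).trans hX
  have hX0' : (0 : ℝ) < X := by exact_mod_cast hXpos
  set L : ℝ := Real.log X with hLdef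
  have ha0 : (0 : ℝ) ≤ a := Nat.cast_nonneg a
  have hl2 := Real.log_two_gt_d9
  have hl2' := Real.log_two_lt_d9
  have hlb : Real.log 2 ≤ Real.log ((a : ℝ) + 2) := Real.log_le_log (by norm_num) (by linarith)
  have hlogL : 1 ≤ Real.log L := log_ge_one (by linarith)
  set l3 : ℝ := Real.log (Real.log L) with hl3
  have hl30 : 0 ≤ l3 := Real.log_nonneg hlogL
  set u : ℝ := (a : ℝ) + 2 + l3 with hu
  have hu2 : 2 ≤ u := by linarith
  have hlogu : 0 < Real.log u := Real.log_pos (by linarith)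
  have hLT : 32 * (((a : ℝ) + 2) * Real.log (a + 2)) ≤ L := by
    rw [hLdef, Real.le_log_iff_exp_le hX0']
    exact hXa
  have hLa : 2 * ((a : ℝ) + 2) ≤ L := by
    have h1 : ((a : ℝ) + 2) * Real.log 2 ≤ ((a : ℝ) + 2) * Real.log (a + 2) :=
      mul_le_mul_of_nonneg_left hlb (by linarith)
    have h2 : ((a : ℝ) + 2) * (1 / 2) ≤ ((a : ℝ) + 2) * Real.log 2 :=
      mul_le_mul_of_nonneg_left (by linarith) (by linarith)
    linarith
  have hl3L : l3 ≤ L / 2 := by
    have h1 : l3 ≤ Real.log L - 1 := Real.log_le_sub_one_of_pos (by linarith)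
    have h2 : Real.log (L / 2) ≤ L / 2 - 1 := Real.log_le_sub_one_of_pos (by linarith)
    rw [Real.log_div (by linarith) (by norm_num)] at h2
    linarith
  have hulam : Real.log u ≤ L := by
    have h1 : Real.log u ≤ u - 1 := Real.log_le_sub_one_of_pos (by linarith)
    linarith
  set W' : ℕ := min W ⌊L⌋₊ with hW'
  have hW'L : (W' : ℝ) ≤ L := by
    have h1 : (W' : ℝ) ≤ (⌊L⌋₊ : ℝ) := by exact_mod_cast min_le_right _ _
    exact h1.trans (Nat.floor_le (by linarith))
  have h1 := hcore a X W' hXX0 hXa hW'L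
  refine le_trans ?_ (nearRep_mono a X (min_le_left W ⌊L⌋₊))
  refine le_trans ?_ h1
  have h2 : 1 / 2 * min 1 (((W : ℝ) + 1) / Real.log u) ≤
      ((W' : ℝ) + 1) / ((W' : ℝ) + 1 + Real.log u) := by
    rcases le_total W ⌊L⌋₊ with h | h
    · have e : W' = W := min_eq_left h
      rw [e]
      exact half_min _ _ (by positivity) hlogu
    · have e : W' = ⌊L⌋₊ := min_eq_right h
      have h3 : Real.log u ≤ (W' : ℝ) + 1 := by
        rw [e]
        exact hulam.trans (Nat.lt_floor_add_one L).le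
      have h4 : min 1 (((W : ℝ) + 1) / Real.log u) ≤ 1 := min_le_left _ _
      rw [le_div_iff₀ (by positivity)]
      have h5 : (0 : ℝ) ≤ W' := Nat.cast_nonneg _
      calc 1 / 2 * min 1 (((W : ℝ) + 1) / Real.log u) * ((W' : ℝ) + 1 + Real.log u)
          ≤ 1 / 2 * 1 * ((W' : ℝ) + 1 + Real.log u) := by gcongr
        _ ≤ (W' : ℝ) + 1 := by linarith
  calc c / 2 * (X * min 1 (((W : ℝ) + 1) / Real.log u))
      = c * (X * (1 / 2 * min 1 (((W : ℝ) + 1) / Real.log u))) := by ring
    _ ≤ c * (X * (((W' : ℝ) + 1) / ((W' : ℝ) + 1 + Real.log u))) := by gcongr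

/-- The upper half: a positive proportion of all windows of length `log (a + 2 + log log log X)`. -/
theorem final_upper : ∃ c C : ℝ, 0 < c ∧ 0 < C ∧ ∀ a X W : ℕ,
    (2 ^ (a ^ 2 + 2 * a + 5) ≤ X ∨ Real.exp (C * (((a : ℝ) + 2) * Real.log (a + 2))) ≤ X) →
    c * (X * min 1 (((W : ℝ) + 1) / Real.log (a + 2 + Real.log (Real.log (Real.log X))))) ≤
      (Set.ncard (NearRep a X W) : ℝ) := by
  obtain ⟨c₁, hc₁, X1, hX1, hbig⟩ := big_range
  have hX1r : (1 : ℝ) ≤ X1 := by exact_mod_cast hX1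
  set C : ℝ := 32 + Real.log X1 with hC
  have hlogX1 : 0 ≤ Real.log X1 := Real.log_nonneg hX1r
  have hC0 : 0 < C := by linarith
  -- beyond exp (C T)
  have hbig2 : ∀ a X W : ℕ, Real.exp (C * (((a : ℝ) + 2) * Real.log (a + 2))) ≤ X →
      c₁ * (X * min 1 (((W : ℝ) + 1) / Real.log (a + 2 + Real.log (Real.log (Real.log X))))) ≤
      (Set.ncard (NearRep a X W) : ℝ) := by
    intro a X W h
    have hT := T_ge a
    refine hbig a X W ?_ ?_
    · have h1 : (X1 : ℝ) ≤ X := by
        refine le_trans ?_ h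
        calc (X1 : ℝ) = Real.exp (Real.log X1) := (Real.exp_log (by linarith)).symm
          _ ≤ _ := Real.exp_le_exp.mpr (by
            rw [hC]
            nlinarith)
      exact_mod_cast h1
    · refine le_trans (Real.exp_le_exp.mpr ?_) h
      refine mul_le_mul_of_nonneg_right (by linarith) (by linarith)
  -- few small cases remain
  have hsmall : ∃ A1 : ℕ, ∀ a : ℕ, A1 ≤ a → C * Real.log ((a : ℝ) + 2) < a * Real.log 2 := by
    have h1 := (Real.isLittleO_log_id_atTop).bound (c := Real.log 2 / (2 * C)) (by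
      have := Real.log_pos (show (1 : ℝ) < 2 by norm_num)
      positivity)
    have h2 : Tendsto (fun a : ℕ => (a : ℝ) + 2) atTop atTop :=
      tendsto_atTop_add_const_right _ _ tendsto_natCast_atTop_atTop
    obtain ⟨A1, hA1⟩ := eventually_atTop.1 ((h2.eventually h1).and (eventually_gt_atTop 2))
    refine ⟨A1, fun a ha => ?_⟩
    obtain ⟨h3, h4⟩ := hA1 a ha
    have h4' : (2 : ℝ) < a := by exact_mod_cast h4
    have hl2 := Real.log_pos (show (1 : ℝ) < 2 by norm_num)
    simp only [id] at h3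
    rw [Real.norm_of_nonneg (Real.log_nonneg (by linarith)), Real.norm_of_nonneg (by linarith)] at h3
    calc C * Real.log ((a : ℝ) + 2) ≤ C * (Real.log 2 / (2 * C) * ((a : ℝ) + 2)) := by gcongr
      _ = Real.log 2 * (((a : ℝ) + 2) / 2) := by field_simp
      _ < Real.log 2 * a := mul_lt_mul_of_pos_left (by linarith) hl2
      _ = _ := mul_comm _ _
  obtain ⟨A1, hA1⟩ := hsmall
  set X2 : ℝ := Real.exp (C * (((A1 : ℝ) + 2) * Real.log (A1 + 2))) with hX2
  have hX20 : 0 < X2 := Real.exp_pos _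
  refine ⟨min c₁ (1 / X2), C, lt_min hc₁ (by positivity), hC0, ?_⟩
  intro a X W h
  have hcle : min c₁ (1 / X2) ≤ c₁ := min_le_left _ _
  by_cases hX : Real.exp (C * (((a : ℝ) + 2) * Real.log (a + 2))) ≤ X
  · refine le_trans ?_ (hbig2 a X W hX)
    by_cases hneg : 0 ≤ (X : ℝ) *
        min 1 (((W : ℝ) + 1) / Real.log (a + 2 + Real.log (Real.log (Real.log X))))
    · exact mul_le_mul_of_nonneg_right hcle hneg
    · -- impossible, but harmless: the left side is smaller in absolute value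
      exfalso
      apply hneg
      refine mul_nonneg (Nat.cast_nonneg _) (le_min zero_le_one (div_nonneg (by positivity) ?_))
      have hT := T_ge a
      have hXpos : (0 : ℝ) < X := lt_of_lt_of_le (Real.exp_pos _) hX
      have hL32 : 32 ≤ Real.log X := by
        rw [Real.le_log_iff_exp_le hXpos]
        refine le_trans (Real.exp_le_exp.mpr ?_) hX
        rw [hC]
        nlinarith
      have h1 : 1 ≤ Real.log (Real.log X) := log_ge_one (by linarith)
      have h2 : 0 ≤ Real.log (Real.log (Real.log X)) := Real.log_nonneg h1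
      have ha0 : (0 : ℝ) ≤ a := Nat.cast_nonneg a
      exact Real.log_nonneg (by linarith)
  · have hX' : 2 ^ (a ^ 2 + 2 * a + 5) ≤ X := by
      rcases h with h | h
      · exact h
      · exact absurd h hX
    rw [not_le] at hX
    -- a is bounded
    have haA : a < A1 := by
      by_contra hcon
      rw [not_lt] at hcon
      have h1 := hA1 a hcon
      have h2 : ((2 : ℝ) ^ (a ^ 2 + 2 * a + 5)) ≤ X := by exact_mod_cast hX'
      have h3 := lt_of_le_of_lt h2 hX
      have h4 : ((a ^ 2 + 2 * a + 5 : ℕ) : ℝ) * Real.log 2 <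
          C * (((a : ℝ) + 2) * Real.log (a + 2)) := by
        have h5 := Real.log_lt_log (by positivity) h3
        rw [Real.log_pow, Real.log_exp] at h5
        exact h5
      push_cast at h4
      have hl2 := Real.log_pos (show (1 : ℝ) < 2 by norm_num)
      have ha0 : (0 : ℝ) ≤ a := Nat.cast_nonneg a
      have h6 : ((a : ℝ) + 2) * (C * Real.log ((a : ℝ) + 2)) ≤ ((a : ℝ) + 2) * (a * Real.log 2) :=
        mul_le_mul_of_nonneg_left h1.le (by linarith)
      nlinarith
    have hXX2 : (X : ℝ) ≤ X2 := by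
      refine hX.le.trans (Real.exp_le_exp.mpr (mul_le_mul_of_nonneg_left ?_ hC0.le))
      have h1 : (a : ℝ) ≤ A1 := by exact_mod_cast haA.le
      have ha0 : (0 : ℝ) ≤ a := Nat.cast_nonneg a
      exact mul_le_mul (by linarith) (Real.log_le_log (by linarith) (by linarith))
        (Real.log_nonneg (by linarith)) (by linarith)
    have hone : (1 : ℝ) ≤ Set.ncard (NearRep a X W) := by
      obtain ⟨m, h1, h2, h3, h4⟩ := exists_rep a X hX'
      have h5 : (NearRep a X W).Nonempty := ⟨m, h1, h2, m, le_refl _, by omega, h3, h4⟩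
      have h6 := (Set.ncard_pos (nearRep_finite a X W)).2 h5
      exact_mod_cast h6
    refine le_trans ?_ hone
    have h7 : min 1 (((W : ℝ) + 1) / Real.log (a + 2 + Real.log (Real.log (Real.log X)))) ≤ 1 :=
      min_le_left _ _
    have h8 : (X : ℝ) * min 1 (((W : ℝ) + 1) /
        Real.log (a + 2 + Real.log (Real.log (Real.log X)))) ≤ X2 := by
      calc (X : ℝ) * min 1 (((W : ℝ) + 1) / Real.log (a + 2 + Real.log (Real.log (Real.log X))))
          ≤ X * 1 := mul_le_mul_of_nonneg_left h7 (Nat.cast_nonneg _)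
        _ ≤ X2 := by linarith
    have h9 : 0 ≤ min c₁ (1 / X2) := (lt_min hc₁ (by positivity)).le
    calc min c₁ (1 / X2) * (X * min 1 (((W : ℝ) + 1) /
        Real.log (a + 2 + Real.log (Real.log (Real.log X)))))
        ≤ min c₁ (1 / X2) * X2 := mul_le_mul_of_nonneg_left h8 h9
      _ ≤ 1 / X2 * X2 := mul_le_mul_of_nonneg_right (min_le_right _ _) hX20.le
      _ = 1 := by field_simp

private theorem exp_le_pow (a : ℕ) (b : ℝ) (hbdef : b = (a : ℝ) + 1) (hb : 1600 ≤ b) :
    Real.exp (1 / 20000 * (((a : ℝ) + 2) * Real.log (a + 2))) ≤ (b / 40) ^ (a + 1) := by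
  have ha0 : (0 : ℝ) ≤ a := Nat.cast_nonneg a
  have hb0 : 0 < b := by linarith
  have hlogb : 0 < Real.log b := Real.log_pos (by linarith)
  have h4 : Real.exp (Real.log b / 2) ≤ b / 40 := by
    have h5 : Real.exp (Real.log b / 2) * Real.exp (Real.log b / 2) = b := by
      rw [← Real.exp_add, add_halves, Real.exp_log hb0]
    have he0 : 0 < Real.exp (Real.log b / 2) := Real.exp_pos _
    generalize Real.exp (Real.log b / 2) = e at h5 he0 ⊢
    have h6 : 40 ≤ e := by
      by_contra hcon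
      rw [not_le] at hcon
      nlinarith
    rw [le_div_iff₀ (by norm_num)]
    calc e * 40 ≤ e * e := mul_le_mul_of_nonneg_left h6 he0.le
      _ = b := h5
  have h5 : Real.exp (b * (Real.log b / 2)) ≤ (b / 40) ^ (a + 1) := by
    have h6 : Real.exp (b * (Real.log b / 2)) = Real.exp (Real.log b / 2) ^ (a + 1) := by
      rw [← Real.exp_nat_mul]
      congr 1
      push_cast
      rw [← hbdef]
    rw [h6]
    exact pow_le_pow_left₀ (Real.exp_pos _).le h4 _
  have h6 : 1 / 20000 * (((a : ℝ) + 2) * Real.log (a + 2)) ≤ b * (Real.log b / 2) := by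
    have h7 : (a : ℝ) + 2 ≤ 2 * b := by linarith
    have h8 : Real.log ((a : ℝ) + 2) ≤ 2 * Real.log b := by
      have h9 : (a : ℝ) + 2 ≤ b ^ 2 := by nlinarith
      have h10 := Real.log_le_log (by linarith) h9
      rw [Real.log_pow] at h10
      push_cast at h10
      exact h10
    have h9 : ((a : ℝ) + 2) * Real.log (a + 2) ≤ (2 * b) * (2 * Real.log b) :=
      mul_le_mul h7 h8 (Real.log_nonneg (by linarith)) (by positivity)
    have h10 : 0 ≤ b * Real.log b := by positivity
    linarith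
  exact (Real.exp_le_exp.mpr h6).trans h5

/-- The lower half: no representations below `exp (c' (a + 2) log (a + 2))`. -/
theorem final_lower (a m : ℕ)
    (hm : (m : ℝ) ≤ Real.exp (1 / 20000 * (((a : ℝ) + 2) * Real.log (a + 2)))) :
    ¬ HasRep a 0 m := by
  rintro ⟨x, y, hx, hy, hxy, -⟩
  have h1 : ipr a x < m := by
    have := (ipr_prime 0 y).two_le
    omega
  have h1' : (ipr a x : ℝ) < m := by exact_mod_cast h1
  have h2 := iter_growth x hx a
  have h3 := iter_ge' x hx (a + 1) (by omega)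
  have ha0 : (0 : ℝ) ≤ a := Nat.cast_nonneg a
  have hx1 : (1 : ℝ) ≤ x := by exact_mod_cast hx
  have hl2 := Real.log_two_gt_d9
  have hl2' := Real.log_two_lt_d9
  rcases Nat.lt_or_ge (a + 1) 1600 with ha | ha
  · have ha' : (a : ℝ) + 2 ≤ 2048 := by
      have : a + 2 ≤ 2048 := by omega
      exact_mod_cast this
    have ha'' : (a : ℝ) + 2 ≤ 1601 := by
      have : a + 2 ≤ 1601 := by omega
      exact_mod_cast this
    have h4 : Real.log ((a : ℝ) + 2) ≤ 7.7 := by
      have h5 := Real.log_le_log (by linarith) ha'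
      have h6 : Real.log 2048 = 11 * Real.log 2 := by
        rw [show (2048 : ℝ) = 2 ^ 11 by norm_num, Real.log_pow]; norm_num
      linarith
    have h5 : ((a : ℝ) + 2) * Real.log ((a : ℝ) + 2) ≤ 1601 * 7.7 :=
      mul_le_mul ha'' h4 (Real.log_nonneg (by linarith)) (by norm_num)
    have h6 : Real.exp (1 / 20000 * (((a : ℝ) + 2) * Real.log (a + 2))) ≤ Real.exp (Real.log 2) :=
      Real.exp_le_exp.mpr (by linarith)
    rw [Real.exp_log (by norm_num)] at h6
    have h7 : (2 : ℝ) ≤ ipr a x := by exact_mod_cast (ipr_prime a x).two_le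
    linarith
  · have hb : (1600 : ℝ) ≤ (a : ℝ) + 1 := by exact_mod_cast ha
    have h5 := exp_le_pow a ((a : ℝ) + 1) rfl hb
    have h7 : (((a : ℝ) + 1) / 40) ^ (a + 1) ≤ ipr a x := by
      refine le_trans ?_ h3
      have e : (((a + 1 : ℕ) : ℝ) / 40) ^ (a + 1) = (((a : ℝ) + 1) / 40) ^ (a + 1) := by
        push_cast
        rfl
      rw [e]
      exact le_mul_of_one_le_left (by positivity) hx1
    linarith

end Pool.Agent.Lib.MP_e3f158_nt.PSW
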