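import Pool.Agent.Lib.MP_e3f158_nt.PSW.Core

/-!
# MP_e3f158_nt: even integers of type `(a, 0)` in short windows, uniformly in `a`

PROOF. `L = log X`, `Y = ⌈max (L², exp (16 (a+2) log (a+2)))⌉`, `Q` = the odd `a`-primes `≤ Y`
(`|Q| ≥ Y / (2 (2 log Y)^(a+1)) ≥ √Y ≥ L`), `P` = the primes in `(X + Y, 2X - Y]`. Cauchy–Schwarz for
the number of `(q, p)` with `q + p ∈ [n, n + W]` (`window_cs`), the upper bound sieve for the pairs
`p, p + h` and the average of the singular series over the shifted differences of `Q`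
(`pair_window`).
-/

namespace Pool.Agent.Lib.MP_e3f158_nt.PSW

open Finset Filter D2

theorem core : ∃ c : ℝ, 0 < c ∧ ∃ X0 : ℕ, ∀ a X W : ℕ, X0 ≤ X →
    Real.exp (32 * (((a : ℝ) + 2) * Real.log (a + 2))) ≤ X → (W : ℝ) ≤ Real.log X →
    c * (X * (((W : ℝ) + 1) / ((W : ℝ) + 1 + Real.log (a + 2 + Real.log (Real.log (Real.log X)))))) ≤
      (Set.ncard {n : ℕ | X ≤ n ∧ n ≤ 2 * X ∧ ∃ m, n ≤ m ∧ m ≤ n + W ∧ Even m ∧ HasRep a 0 m} :
        ℝ) := by
  obtain ⟨C₁, hC₁, hsieve⟩ := tuple_sieve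
  obtain ⟨C₄, hC₄, hpair⟩ := pair_window
  obtain ⟨c₀, hc₀, hdy⟩ := dyadic
  have hlog2 : 0 < Real.log 2 := Real.log_pos (by norm_num)
  have hlog3 : 0 < Real.log 3 := Real.log_pos (by norm_num)
  set A : ℝ := 2 * (2 * C₁ * Real.log 2 + 10 * C₄ * (2 * C₁ * Real.log 3) ^ 2) with hA
  have hA0 : 0 < A := by rw [hA]; positivity
  have hL : Tendsto (fun N : ℕ => Real.log N) atTop atTop :=
    Real.tendsto_log_atTop.comp tendsto_natCast_atTop_atTop
  have c2 : ∀ᶠ N : ℕ in atTop, (Real.log N) ^ 4 ≤ N := by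
    have h1 := (Real.isLittleO_pow_log_id_atTop (n := 4)).bound (c := 1) (by norm_num)
    filter_upwards [tendsto_natCast_atTop_atTop.eventually h1] with N hN
    have h2 : 0 ≤ Real.log N := Real.log_natCast_nonneg N
    simp only [id] at hN
    rw [Real.norm_of_nonneg (by positivity), Real.norm_of_nonneg (by positivity)] at hN
    linarith
  have c3 : ∀ᶠ N : ℕ in atTop, 64 * (Real.log N) ^ 2 ≤ c₀ ^ 2 * N := by
    have h1 := (Real.isLittleO_pow_log_id_atTop (n := 2)).bound (c := c₀ ^ 2 / 64) (by positivity)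
    filter_upwards [tendsto_natCast_atTop_atTop.eventually h1] with N hN
    have h2 : 0 ≤ Real.log N := Real.log_natCast_nonneg N
    simp only [id] at hN
    rw [Real.norm_of_nonneg (by positivity), Real.norm_of_nonneg (by positivity)] at hN
    linarith
  obtain ⟨X0, hX0⟩ := eventually_atTop.1 (c2.and (c3.and (hdy.and
    ((hL.eventually_ge_atTop (2 * C₁ * Real.log 3)).and
    ((hL.eventually_ge_atTop (C₁ * Real.log 2)).and (hL.eventually_ge_atTop 16))))))
  refine ⟨c₀ ^ 2 / (4 * A), by positivity, X0, ?_⟩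
  intro a X W hX hXa hW
  obtain ⟨g2, g3, gdy, g4, g5, g6⟩ := hX0 X hX
  set L : ℝ := Real.log X with hLdef
  have hL0 : 0 < L := by linarith
  have hX0' : (0 : ℝ) < X := by
    have : 0 < L ^ 4 := by positivity
    linarith
  have hXpos : 0 < X := by exact_mod_cast hX0'
  have ha0 : (0 : ℝ) ≤ a := Nat.cast_nonneg a
  set T : ℝ := ((a : ℝ) + 2) * Real.log (a + 2) with hT
  have hlb : Real.log 2 ≤ Real.log ((a : ℝ) + 2) := Real.log_le_log (by norm_num) (by linarith)
  have hl2 := Real.log_two_gt_d9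
  have hl2' := Real.log_two_lt_d9
  have hT1 : 1 ≤ T := by
    have : (2 : ℝ) * Real.log 2 ≤ T := mul_le_mul (by linarith) hlb hlog2.le (by linarith)
    linarith
  -- the iterated logarithms
  have hlogL : 1 ≤ Real.log L := log_ge_one (by linarith)
  set l3 : ℝ := Real.log (Real.log L) with hl3
  have hl30 : 0 ≤ l3 := Real.log_nonneg hlogL
  set u : ℝ := (a : ℝ) + 2 + l3 with hu
  have hua : (a : ℝ) + 2 ≤ u := by linarith
  have hu2 : 2 ≤ u := by linarith
  have hlogu : 0 < Real.log u := Real.log_pos (by linarith)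
  -- the size of Y
  set S : ℝ := Real.sqrt X with hS
  have hS2 : S * S = X := Real.mul_self_sqrt hX0'.le
  have hSL : L ^ 2 ≤ S := by
    rw [hS, Real.le_sqrt (by positivity) hX0'.le]
    calc (L ^ 2) ^ 2 = L ^ 4 := by ring
      _ ≤ (X : ℝ) := g2
  have hL256 : (256 : ℝ) ≤ L ^ 2 := by
    have : (16 : ℝ) ^ 2 ≤ L ^ 2 := pow_le_pow_left₀ (by norm_num) g6 2
    linarith
  have hLL : L ≤ L ^ 2 := le_self_pow₀ (by linarith) (by norm_num)
  have hS0 : 1 ≤ S := by linarith
  have hSe : Real.exp (16 * T) ≤ S := by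
    rw [hS, Real.le_sqrt (by positivity) hX0'.le, ← Real.exp_nat_mul]
    refine le_trans (le_of_eq ?_) hXa
    congr 1
    push_cast
    ring
  set Mx : ℝ := max (L ^ 2) (Real.exp (16 * T)) with hMx
  have hMx0 : 0 ≤ Mx := le_trans (by positivity) (le_max_left _ _)
  have hMxS : Mx ≤ S := max_le hSL hSe
  set Y : ℕ := ⌈Mx⌉₊ with hYdef
  have hYge : Mx ≤ Y := Nat.le_ceil _
  have hYge1 : L ^ 2 ≤ Y := (le_max_left _ _).trans hYge
  have hYge2 : Real.exp (16 * T) ≤ Y := (le_max_right _ _).trans hYge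
  have hYlt : (Y : ℝ) < Mx + 1 := Nat.ceil_lt_add_one hMx0
  have hYS : (Y : ℝ) ≤ 2 * S := by linarith
  have hY256 : (256 : ℝ) ≤ Y := by linarith
  have hY3 : 3 ≤ Y := by
    have : (3 : ℝ) ≤ Y := by linarith
    exact_mod_cast this
  have hY0 : (0 : ℝ) < Y := by linarith
  have hWY : W ≤ Y := by
    have : (W : ℝ) ≤ Y := by linarith
    exact_mod_cast this
  -- t = log Y
  set t : ℝ := Real.log Y with htdef
  have ht16 : 16 * T ≤ t := by
    rw [htdef, Real.le_log_iff_exp_le hY0]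
    exact hYge2
  have hsize := size_cond a t ht16
  set D : ℝ := (2 * t) ^ (a + 1) with hD
  have ht1 : 16 ≤ t := by linarith
  have hD0 : 0 < D := by rw [hD]; positivity
  have hD1 : 1 ≤ D := by rw [hD]; exact one_le_pow₀ (by linarith)
  set E : ℝ := Real.exp (t / 2) with hE
  have hE0 : 0 < E := Real.exp_pos _
  have hEE : E * E = Y := by
    rw [hE, ← Real.exp_add, add_halves, htdef, Real.exp_log hY0]
  have hLE : L ≤ E := by
    by_contra hcon
    rw [not_le] at hcon
    have h1 : E * E < L * L := mul_lt_mul'' hcon hcon hE0.le hE0.le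
    have h2 : L * L = L ^ 2 := by ring
    linarith
  have hE2 : 2 ≤ E := by linarith
  have hEE2 : E * 2 ≤ E * E := mul_le_mul_of_nonneg_left hE2 hE0.le
  -- the size of Q
  set Q := Qs a Y with hQdef
  set P := Ps X Y with hPdef
  have hpic : (Y : ℝ) / D ≤ pic (a + 1) Y := by
    refine pic_lower Y hY3 (a + 1) ?_
    show 3 * D ≤ Y
    linarith
  have hQc : (Y : ℝ) / (2 * D) ≤ Q.card := by
    have h13 : (2 : ℝ) ≤ Y / D := by
      rw [le_div_iff₀ hD0]
      linarith
    have h15 : ((pic (a + 1) Y - 1 : ℕ) : ℝ) = pic (a + 1) Y - 1 := by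
      rw [Nat.cast_sub, Nat.cast_one]
      have : (1 : ℝ) ≤ pic (a + 1) Y := by linarith
      exact_mod_cast this
    rw [hQdef, Qs_card, h15]
    have h16 : (Y : ℝ) / (2 * D) = Y / D / 2 := by
      field_simp
    rw [h16]
    linarith
  have hQE : E ≤ Q.card := by
    refine le_trans ?_ hQc
    rw [le_div_iff₀ (by positivity), ← hEE]
    exact mul_le_mul_of_nonneg_left hsize hE0.le
  have hQL : L ≤ Q.card := hLE.trans hQE
  have hQ0 : (0 : ℝ) < Q.card := by linarith
  -- the size of P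
  have hPge : c₀ / 2 * (X / L) ≤ P.card := by
    have h12 := Ps_card X Y
    have h13 : (((Ioc X (2 * X)).filter Nat.Prime).card : ℝ) ≤ P.card + 2 * Y := by
      exact_mod_cast h12
    have h14 : 8 * L ≤ c₀ * S := by
      have h15 : (8 * L) ^ 2 ≤ (c₀ * S) ^ 2 := by
        calc (8 * L) ^ 2 = 64 * L ^ 2 := by ring
          _ ≤ c₀ ^ 2 * X := g3
          _ = (c₀ * S) ^ 2 := by rw [← hS2]; ring
      exact (sq_le_sq₀ (by positivity) (by positivity)).1 h15
    have h16 : 2 * (Y : ℝ) ≤ c₀ / 2 * (X / L) := by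
      rw [← mul_div_assoc, le_div_iff₀ hL0]
      calc 2 * (Y : ℝ) * L ≤ 2 * (2 * S) * L := by gcongr
        _ = S / 2 * (8 * L) := by ring
        _ ≤ S / 2 * (c₀ * S) := by gcongr
        _ = c₀ / 2 * (S * S) := by ring
        _ = c₀ / 2 * X := by rw [hS2]
    linarith
  have hlog2X : L ≤ Real.log ((2 * X : ℕ) : ℝ) := by
    refine Real.log_le_log hX0' ?_
    push_cast
    linarith
  have hPle : (P.card : ℝ) ≤ 2 * C₁ * Real.log 2 * (X / L) := by
    have h12 := hsieve {0} (singleton_nonempty 0) (2 * X) (by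
      rw [card_singleton]
      push_cast
      rw [mul_one, one_add_one_eq_two]
      push_cast at hlog2X
      linarith)
    have h13 : P.card ≤
        ((range (2 * X)).filter fun n => ∀ h ∈ ({0} : Finset ℕ), (n + h).Prime).card := by
      refine card_le_card fun p hp => ?_
      rw [hPdef, Ps, mem_filter, mem_Ioc] at hp
      rw [mem_filter, mem_range]
      refine ⟨by omega, ?_⟩
      intro h hh
      rw [mem_singleton] at hh
      rw [hh, add_zero]
      exact hp.2
    have h14 : (P.card : ℝ) ≤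
        (((range (2 * X)).filter fun n => ∀ h ∈ ({0} : Finset ℕ), (n + h).Prime).card : ℝ) := by
      exact_mod_cast h13
    refine h14.trans (h12.trans ?_)
    rw [card_singleton]
    simp only [Nat.cast_one, mul_one, one_add_one_eq_two, pow_one, Nat.sub_self, pow_zero]
    calc ((2 * X : ℕ) : ℝ) * (C₁ * Real.log 2 / Real.log ((2 * X : ℕ) : ℝ))
        ≤ ((2 * X : ℕ) : ℝ) * (C₁ * Real.log 2 / L) := by
          gcongr
      _ = 2 * C₁ * Real.log 2 * (X / L) := by
          push_cast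
          ring
  -- pairs
  set B : ℕ → ℝ := fun h => 2 * (X / L ^ 2) * (2 * C₁ * Real.log 3) ^ 2 * ES h.primeFactors with hBdef
  have hB0 : ∀ h, 0 ≤ B h := by
    intro h
    have : 0 < ES h.primeFactors := Real.exp_pos _
    simp only [hBdef]
    positivity
  have hB : ∀ h, 1 ≤ h → ((P.filter fun n => n + h ∈ P).card : ℝ) ≤ B h := by
    intro h hh
    have hcard : ({0, h} : Finset ℕ).card = 2 := card_pair (by omega)
    have e : ((2 : ℕ) : ℝ) + 1 = 3 := by norm_num
    have h12 := hsieve {0, h} (insert_nonempty _ _) (2 * X) (by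
      rw [hcard, e]
      push_cast
      push_cast at hlog2X
      linarith)
    have h13 : (P.filter fun n => n + h ∈ P).card ≤
        ((range (2 * X)).filter fun n => ∀ k ∈ ({0, h} : Finset ℕ), (n + k).Prime).card := by
      refine card_le_card fun p hp => ?_
      rw [mem_filter, hPdef, Ps, mem_filter, mem_filter, mem_Ioc, mem_Ioc] at hp
      rw [mem_filter, mem_range]
      refine ⟨by omega, ?_⟩
      intro k hk
      rw [mem_insert, mem_singleton] at hk
      rcases hk with rfl | rfl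
      · rw [add_zero]
        exact hp.1.2
      · exact hp.2.2
    have h14 : ((P.filter fun n => n + h ∈ P).card : ℝ) ≤
        (((range (2 * X)).filter fun n => ∀ k ∈ ({0, h} : Finset ℕ), (n + k).Prime).card : ℝ) := by
      exact_mod_cast h13
    refine h14.trans (h12.trans ?_)
    rw [hcard, dset_pair hh, e]
    have hES : 0 < ES h.primeFactors := Real.exp_pos _
    calc ((2 * X : ℕ) : ℝ) * (C₁ * ((2 : ℕ) : ℝ) * Real.log 3 / Real.log ((2 * X : ℕ) : ℝ)) ^ 2 *
          ES h.primeFactors ^ (2 - 1)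
        ≤ ((2 * X : ℕ) : ℝ) * (C₁ * ((2 : ℕ) : ℝ) * Real.log 3 / L) ^ 2 *
          ES h.primeFactors ^ (2 - 1) := by
          gcongr
      _ = B h := by
          simp only [hBdef]
          push_cast
          rw [pow_one]
          field_simp
  -- the average
  set k : ℕ := ⌈Real.log (4 * D)⌉₊ + 3 with hk
  have h4D : 0 < 4 * D := by positivity
  have hlog4D : 0 ≤ Real.log (4 * D) := Real.log_nonneg (by linarith)
  have hkexp : 4 * D ≤ Real.exp k := by
    have h12 : Real.log (4 * D) ≤ k := by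
      rw [hk]
      push_cast
      have := Nat.le_ceil (Real.log (4 * D))
      linarith
    calc 4 * D = Real.exp (Real.log (4 * D)) := (Real.exp_log h4D).symm
      _ ≤ Real.exp k := Real.exp_le_exp.mpr h12
  have hkle : (k : ℝ) ≤ Real.log (4 * D) + 4 := by
    rw [hk]
    push_cast
    have := Nat.ceil_lt_add_one hlog4D
    linarith
  have ht35 : 2 * t ≤ Real.exp (5 + u) := by
    have hMx1 : 1 ≤ Mx := le_trans (by linarith) (le_max_left _ _)
    have hMxle : Mx ≤ L ^ 2 * Real.exp (16 * T) := by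
      have h1 : 1 ≤ Real.exp (16 * T) := Real.one_le_exp (by positivity)
      have h2 : 1 ≤ L ^ 2 := by linarith
      exact max_le (le_mul_of_one_le_right (by positivity) h1)
        (le_mul_of_one_le_left (by positivity) h2)
    have h1 : t ≤ Real.log 2 + (2 * Real.log L + 16 * T) := by
      have h2 : (Y : ℝ) ≤ 2 * (L ^ 2 * Real.exp (16 * T)) := by linarith
      have h3 := Real.log_le_log hY0 h2
      rw [Real.log_mul (by norm_num) (by positivity), Real.log_mul (by positivity) (by positivity),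
        Real.log_pow, Real.log_exp] at h3
      push_cast at h3
      exact h3
    have h4 : Real.log L ≤ Real.exp u := by
      rw [← Real.exp_log (show 0 < Real.log L by linarith)]
      exact Real.exp_le_exp.mpr (by rw [hu]; linarith)
    have h5 : T ≤ u ^ 2 := by
      have h6 : Real.log ((a : ℝ) + 2) ≤ (a : ℝ) + 2 := by
        have := Real.log_le_sub_one_of_pos (show (0 : ℝ) < (a : ℝ) + 2 by positivity)
        linarith
      rw [hT]
      calc ((a : ℝ) + 2) * Real.log ((a : ℝ) + 2) ≤ u * u :=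
            mul_le_mul hua (h6.trans hua) (by linarith) (by linarith)
        _ = u ^ 2 := (sq u).symm
    have h7 : 1 + u + u ^ 2 / 2 ≤ Real.exp u := Real.quadratic_le_exp_of_nonneg (by linarith)
    have h8 : t ≤ 35 * Real.exp u := by linarith
    have h9 : (70 : ℝ) ≤ Real.exp 5 := by
      have h10 := Real.exp_one_gt_d9
      have h11 : Real.exp 5 = Real.exp 1 ^ 5 := by
        rw [← Real.exp_nat_mul]
        norm_num
      rw [h11]
      calc (70 : ℝ) ≤ 2.7 ^ 5 := by norm_num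
        _ ≤ Real.exp 1 ^ 5 := by gcongr; linarith
    rw [Real.exp_add]
    calc 2 * t ≤ 70 * Real.exp u := by linarith
      _ ≤ Real.exp 5 * Real.exp u := by gcongr
  have hlogD : Real.log D ≤ ((a : ℝ) + 1) * (5 + u) := by
    rw [hD, Real.log_pow]
    push_cast
    refine mul_le_mul_of_nonneg_left ?_ (by positivity)
    rw [Real.log_le_iff_le_exp (by positivity)]
    exact ht35
  have hk3 : 3 ≤ k := by omega
  have hlogk := logk_bound a k u D hua hD0 hk3 hlogD hkle
  have hQsub : Q ⊆ Icc 1 Y := by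
    intro q hq
    obtain ⟨-, -, -, -, h12, h13⟩ := Qs_mem hq
    rw [mem_Icc]
    omega
  have havg := hpair Y W Q hQsub hWY k hk3 (by
      have h12 : 2 * (Y : ℝ) = Y / (2 * D) * (4 * D) := by
        field_simp
        ring
      rw [h12]
      exact mul_le_mul hQc hkexp (by positivity) hQ0.le)
  -- Cauchy-Schwarz
  have hlo : ∀ x ∈ Q ×ˢ P, X + W ≤ x.1 + x.2 := by
    intro x hx
    rw [mem_product] at hx
    have h1 := hx.2
    rw [hPdef, Ps, mem_filter, mem_Ioc] at h1
    omega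
  have hhi : ∀ x ∈ Q ×ˢ P, x.1 + x.2 ≤ 2 * X := by
    intro x hx
    rw [mem_product] at hx
    have h1 := hx.2
    rw [hPdef, Ps, mem_filter, mem_Ioc] at h1
    have h2 := mem_Icc.1 (hQsub hx.1)
    omega
  have hcs := window_cs Q P X W hlo hhi B hB0 hB
  have hBsum : ∑ j ∈ range (W + 1), ∑ x ∈ Q ×ˢ Q, B (Nat.dist (x.1 + j) x.2) =
      2 * (X / L ^ 2) * (2 * C₁ * Real.log 3) ^ 2 *
        ∑ j ∈ range (W + 1), ∑ x ∈ Q ×ˢ Q, ES (Nat.dist (x.1 + j) x.2).primeFactors := by
    rw [Finset.mul_sum]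
    refine Finset.sum_congr rfl fun j _ => ?_
    rw [Finset.mul_sum]
  rw [hBsum] at hcs
  set M : ℝ := ((winSet Q P X W).card : ℝ) with hM
  have hM0 : 0 ≤ M := Nat.cast_nonneg _
  have hcount : M ≤
      (Set.ncard {n : ℕ | X ≤ n ∧ n ≤ 2 * X ∧ ∃ m, n ≤ m ∧ m ≤ n + W ∧ Even m ∧ HasRep a 0 m} :
        ℝ) := by
    rw [hM, ← Set.ncard_coe_finset]
    have h1 : ((winSet Q P X W : Finset ℕ) : Set ℕ) ⊆
        {n : ℕ | X ≤ n ∧ n ≤ 2 * X ∧ ∃ m, n ≤ m ∧ m ≤ n + W ∧ Even m ∧ HasRep a 0 m} := by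
      intro n hn
      rw [mem_coe, winSet, mem_filter, mem_Icc] at hn
      obtain ⟨⟨h1, h2⟩, x, hx, h3, h4⟩ := hn
      rw [mem_product] at hx
      obtain ⟨h5, h6⟩ := sum_mem hx.1 hx.2
      exact ⟨h1, h2, x.1 + x.2, h3, h4, h5, h6⟩
    have h2 : {n : ℕ | X ≤ n ∧ n ≤ 2 * X ∧ ∃ m, n ≤ m ∧ m ≤ n + W ∧ Even m ∧
        HasRep a 0 m}.Finite := (Set.finite_Icc X (2 * X)).subset fun n hn => ⟨hn.1, hn.2.1⟩
    exact_mod_cast Set.ncard_le_ncard h1 h2
  refine le_trans ?_ hcount
  show c₀ ^ 2 / (4 * A) * (X * (((W : ℝ) + 1) / ((W : ℝ) + 1 + Real.log u))) ≤ M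
  set w1 : ℝ := (W : ℝ) + 1 with hw1
  have hw10 : 0 < w1 := by rw [hw1]; positivity
  set lam : ℝ := Real.log u with hlam
  set q : ℝ := (Q.card : ℝ) with hq
  have e1 : w1 * (q * P.card) ≤ q ^ 2 * (X / L ^ 2) * (2 * C₁ * Real.log 2 * (w1 + lam)) := by
    calc w1 * (q * P.card) ≤ w1 * (q * (2 * C₁ * Real.log 2 * (X / L))) := by gcongr
      _ = q * (X / L ^ 2) * L * (2 * C₁ * Real.log 2 * w1) := by
          field_simp
      _ ≤ q * (X / L ^ 2) * q * (2 * C₁ * Real.log 2 * (w1 + lam)) := by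
          gcongr
          linarith
      _ = _ := by ring
  have e2 : 2 * (X / L ^ 2) * (2 * C₁ * Real.log 3) ^ 2 *
        ∑ j ∈ range (W + 1), ∑ x ∈ Q ×ˢ Q, ES (Nat.dist (x.1 + j) x.2).primeFactors ≤
      q ^ 2 * (X / L ^ 2) * (10 * C₄ * (2 * C₁ * Real.log 3) ^ 2 * (w1 + lam)) := by
    calc 2 * (X / L ^ 2) * (2 * C₁ * Real.log 3) ^ 2 *
        ∑ j ∈ range (W + 1), ∑ x ∈ Q ×ˢ Q, ES (Nat.dist (x.1 + j) x.2).primeFactors
        ≤ 2 * (X / L ^ 2) * (2 * C₁ * Real.log 3) ^ 2 * (C₄ * (w1 + Real.log k) * q ^ 2) :=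
          mul_le_mul_of_nonneg_left havg (by positivity)
      _ ≤ 2 * (X / L ^ 2) * (2 * C₁ * Real.log 3) ^ 2 * (C₄ * (5 * (w1 + lam)) * q ^ 2) := by
          gcongr
          linarith
      _ = _ := by ring
  have hfin : q ^ 2 * (X / L ^ 2) * (w1 * (c₀ ^ 2 / 4) * X) ≤
      q ^ 2 * (X / L ^ 2) * (M * (A * (w1 + lam))) := by
    calc q ^ 2 * (X / L ^ 2) * (w1 * (c₀ ^ 2 / 4) * X)
        = w1 * (q * (c₀ / 2 * (X / L))) ^ 2 := by
          field_simp
          ring
      _ ≤ w1 * (q * P.card) ^ 2 := by gcongr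
      _ ≤ M * (2 * (w1 * (q * P.card) + 2 * (X / L ^ 2) * (2 * C₁ * Real.log 3) ^ 2 *
        ∑ j ∈ range (W + 1), ∑ x ∈ Q ×ˢ Q, ES (Nat.dist (x.1 + j) x.2).primeFactors)) := hcs
      _ ≤ M * (2 * (q ^ 2 * (X / L ^ 2) * (2 * C₁ * Real.log 2 * (w1 + lam)) +
          q ^ 2 * (X / L ^ 2) * (10 * C₄ * (2 * C₁ * Real.log 3) ^ 2 * (w1 + lam)))) := by
          gcongr
      _ = q ^ 2 * (X / L ^ 2) * (M * (A * (w1 + lam))) := by
          rw [hA]
          ring
  have hpos : 0 < q ^ 2 * (X / L ^ 2) := by positivity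
  have hfin3 := le_of_mul_le_mul_left hfin hpos
  have hwl : 0 < w1 + lam := by linarith
  have e3 : c₀ ^ 2 / (4 * A) * (X * (w1 / (w1 + lam))) = w1 * (c₀ ^ 2 / 4) * X / (A * (w1 + lam)) := by
    field_simp
  rw [e3, div_le_iff₀ (by positivity)]
  exact hfin3

end Pool.Agent.Lib.MP_e3f158_nt.PSW
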